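import Mathlib
open MeasureTheory ProbabilityTheory Filter Topology Set

namespace Pool.Agent.Results.MP_04add8_pr.WhittFails

/-! ### The model -/

/-- One step of the Kiefer-Wolfowitz recursion of the two-server queue: `w` is the ordered workload
vector found by a customer, `s` its service time, `t` the time until the next arrival. -/
noncomputable def kwStep (w : ℝ × ℝ) (s t : ℝ) : ℝ × ℝ :=
  (min (max (w.1 + s - t) 0) (max (w.2 - t) 0), max (max (w.1 + s - t) 0) (max (w.2 - t) 0))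

/-- `μ` is a stationary law of the ordered workload vector, for service law `S` and interarrival
law `T`; the first coordinate then has the law of the stationary waiting time `D`. -/
structure IsStationary (S T : Measure ℝ) (μ : Measure (ℝ × ℝ)) : Prop where
  prob : IsProbabilityMeasure μ
  ordered : ∀ᵐ w ∂μ, 0 ≤ w.1 ∧ w.1 ≤ w.2
  invariant : (μ.prod (S.prod T)).map (fun p => kwStep p.1 p.2.1 p.2.2) = μ

/-- The integrated tail: minimum of one and the integral of `P(service > y)` over `y > x`. -/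
noncomputable def integratedTail (S : Measure ℝ) (x : ℝ) : ℝ :=
  min 1 (∫ y in Ioi x, S.real (Ioi y))

/-- Whitt's formula for two servers and load in `(1,2)`: `P(D > x)` divided by
`γ * integratedTail (η x)` tends to one, for some constants `γ, η > 0`. -/
def WhittFormula (S : Measure ℝ) (μ : Measure (ℝ × ℝ)) : Prop :=
  ∃ γ η : ℝ, 0 < γ ∧ 0 < η ∧
    Tendsto (fun x => μ.real {w | x < w.1} / (γ * integratedTail S (η * x))) atTop (𝓝 1)

/-- The standing assumptions of the question: service law `S` and interarrival law `T` on the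
positive half line with finite means, load `ρ` in `(1,2)`, `S` heavy-tailed with all moments. -/
structure Regime (S T : Measure ℝ) (ρ : ℝ) : Prop where
  probS : IsProbabilityMeasure S
  probT : IsProbabilityMeasure T
  posS : ∀ᵐ s ∂S, 0 < s
  posT : ∀ᵐ t ∂T, 0 < t
  intS : Integrable (fun s => s) S
  intT : Integrable (fun t => t) T
  load : ∫ s, s ∂S = ρ * ∫ t, t ∂T
  one_lt : 1 < ρ
  lt_two : ρ < 2
  heavy : ∀ c : ℝ, 0 < c → ∫⁻ s, ENNReal.ofReal (Real.exp (c * s)) ∂S = ⊤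
  moments : ∀ p : ℝ, 0 < p → ∫⁻ s, ENNReal.ofReal (s ^ p) ∂S < ⊤

/-! ### Real analysis -/

/-- increments of a concave function decrease -/
theorem rpow_incr {β a b c : ℝ} (h0 : 0 ≤ β) (h1 : β ≤ 1) (ha : 0 ≤ a) (hab : a ≤ b) (hc : 0 ≤ c) :
    (b + c) ^ β + a ^ β ≤ b ^ β + (a + c) ^ β := by
  have hcc := Real.concaveOn_rpow h0 h1
  rcases eq_or_lt_of_le (show 0 ≤ b + c - a by linarith) with h | h
  · have hb : b = a := by linarith
    have hc' : c = 0 := by linarith
    subst hb; subst hc'; simp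
  · set D := b + c - a with hD
    have e1 : (c / D) + (b - a) / D = 1 := by
      rw [← add_div, div_eq_one_iff_eq h.ne']; rw [hD]; ring
    have hp1 : 0 ≤ c / D := div_nonneg hc h.le
    have hp2 : 0 ≤ (b - a) / D := div_nonneg (by linarith) h.le
    have k1 := hcc.2 (show a ∈ Ici (0:ℝ) from ha) (show b + c ∈ Ici (0:ℝ) by simp; linarith) hp1 hp2 e1
    have k2 := hcc.2 (show a ∈ Ici (0:ℝ) from ha) (show b + c ∈ Ici (0:ℝ) by simp; linarith) hp2 hp1
      (by rw [add_comm]; exact e1)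
    simp only [smul_eq_mul] at k1 k2
    have f1 : c / D * a + (b - a) / D * (b + c) = b := by
      field_simp; rw [hD]; ring
    have f2 : (b - a) / D * a + c / D * (b + c) = a + c := by
      field_simp; rw [hD]; ring
    rw [f1] at k1
    rw [f2] at k2
    have e2 : c / D * (a ^ β + (b + c) ^ β) + (b - a) / D * (a ^ β + (b + c) ^ β)
        = a ^ β + (b + c) ^ β := by rw [← add_mul, e1, one_mul]
    linarith

/-- jump inequality -/
theorem jump_ineq {β κ w1 w2 s : ℝ} (h0 : 0 < β) (h1 : β ≤ 1) (hκ0 : 0 ≤ κ) (hκ : (1 + κ) ^ β = 2)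
    (hw1 : 0 ≤ w1) (hw : w1 ≤ w2) (hs : 0 ≤ s) :
    (max (w1 + s) w2 + κ * min (w1 + s) w2) ^ β ≤ (w2 + κ * w1) ^ β + s ^ β := by
  have hw2 : 0 ≤ w2 := hw1.trans hw
  rcases le_total (w1 + s) w2 with h | h
  · rw [max_eq_right h, min_eq_left h]
    have hk : 0 ≤ κ * w1 := by positivity
    have := rpow_incr h0.le h1 hs (show s ≤ w2 + κ * w1 by linarith) (show 0 ≤ κ * s by positivity)
    have e2 : (s + κ * s) ^ β = 2 * s ^ β := by
      rw [show s + κ * s = (1 + κ) * s by ring, Real.mul_rpow (by linarith) hs, hκ]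
    rw [e2] at this
    have e3 : w2 + κ * (w1 + s) = w2 + κ * w1 + κ * s := by ring
    rw [e3]; linarith
  · rw [max_eq_left h, min_eq_right h]
    have hc : 0 ≤ w1 + κ * w2 := by positivity
    have := rpow_incr h0.le h1 (show 0 ≤ w2 - w1 by linarith) (show w2 - w1 ≤ s by linarith) hc
    have e1 : w2 - w1 + (w1 + κ * w2) = (1 + κ) * w2 := by ring
    rw [e1, Real.mul_rpow (by linarith) hw2, hκ] at this
    have e3 : w1 + s + κ * w2 = s + (w1 + κ * w2) := by ring
    rw [e3]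
    -- need 2 w2^β ≤ (w2 + κ w1)^β + (w2 - w1)^β
    have key : 2 * w2 ^ β ≤ (w2 + κ * w1) ^ β + (w2 - w1) ^ β := by
      rcases eq_or_lt_of_le hw2 with hz | hpos
      · have : w1 = 0 := by linarith
        subst this; rw [← hz]; simp [Real.zero_rpow h0.ne']
      · have hcc := Real.concaveOn_rpow h0.le h1
        have hr0 : 0 ≤ w1 / w2 := by positivity
        have hr1 : w1 / w2 ≤ 1 := by rw [div_le_one hpos]; exact hw
        have k1 := hcc.2 (show w2 ∈ Ici (0:ℝ) from hw2) (show (1 + κ) * w2 ∈ Ici (0:ℝ) by simp; positivity)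
          (show 0 ≤ 1 - w1 / w2 by linarith) hr0 (by ring)
        have k2 := hcc.2 (show w2 ∈ Ici (0:ℝ) from hw2) (show (0:ℝ) ∈ Ici (0:ℝ) by simp)
          (show 0 ≤ 1 - w1 / w2 by linarith) hr0 (by ring)
        simp only [smul_eq_mul] at k1 k2
        rw [Real.mul_rpow (by linarith) hw2, hκ] at k1
        have f1 : (1 - w1 / w2) * w2 + w1 / w2 * ((1 + κ) * w2) = w2 + κ * w1 := by
          field_simp; ring
        have f2 : (1 - w1 / w2) * w2 + w1 / w2 * 0 = w2 - w1 := by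
          field_simp; ring
        rw [f1] at k1
        rw [f2] at k2
        rw [Real.zero_rpow h0.ne'] at k2
        nlinarith [k1, k2]
    linarith

/-- Huber type function -/
noncomputable def hub (K y : ℝ) : ℝ := if y ≤ K then y ^ 2 / (2 * K) else y - K / 2

noncomputable def hubd (K y : ℝ) : ℝ := if y ≤ K then y / K else 1

theorem hub_nonneg {K y : ℝ} (hK : 0 < K) : 0 ≤ hub K y := by
  unfold hub; split_ifs with h
  · positivity
  · push Not at h; linarith

theorem hub_le {K y : ℝ} (hK : 0 < K) (hy : 0 ≤ y) : hub K y ≤ y := by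
  unfold hub; split_ifs with h
  · rw [div_le_iff₀ (by linarith)]; nlinarith
  · linarith

theorem le_hub {K y : ℝ} (hK : 0 < K) : y - K / 2 ≤ hub K y := by
  unfold hub; split_ifs with h
  · rw [le_div_iff₀ (by linarith)]; nlinarith [sq_nonneg (y - K)]
  · exact le_rfl

theorem hubd_nonneg {K y : ℝ} (hK : 0 < K) (hy : 0 ≤ y) : 0 ≤ hubd K y := by
  unfold hubd; split_ifs with h
  · positivity
  · exact zero_le_one

theorem hubd_le {K y : ℝ} (hK : 0 < K) : hubd K y ≤ 1 := by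
  unfold hubd; split_ifs with h
  · rw [div_le_one hK]; exact h
  · exact le_rfl

/-- second order upper bound with truncation at zero -/
theorem hub_taylor {K y d : ℝ} (hK : 0 < K) (hy : 0 ≤ y) :
    hub K (max (y + d) 0) - hub K y ≤ hubd K y * d + d ^ 2 / (2 * K) := by
  have hz : (max (y + d) 0) ^ 2 ≤ (y + d) ^ 2 := by
    rcases le_total (y + d) 0 with h | h
    · rw [max_eq_right h]; simpa using sq_nonneg (y + d)
    · rw [max_eq_left h]
  have hz' : y + d ≤ max (y + d) 0 := le_max_left _ _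
  have hh : hub K (max (y + d) 0) ≤ (max (y + d) 0) ^ 2 / (2 * K) := by
    unfold hub; split_ifs with h
    · exact le_rfl
    · rw [le_div_iff₀ (by linarith)]; nlinarith [sq_nonneg (max (y + d) 0 - K)]
  by_cases hyK : y ≤ K
  · have e1 : hub K y = y ^ 2 / (2 * K) := by unfold hub; rw [if_pos hyK]
    have e2 : hubd K y = y / K := by unfold hubd; rw [if_pos hyK]
    rw [e1, e2]
    have : (max (y + d) 0) ^ 2 / (2 * K) ≤ (y + d) ^ 2 / (2 * K) := by gcongr
    have e3 : (y + d) ^ 2 / (2 * K) - y ^ 2 / (2 * K) = y / K * d + d ^ 2 / (2 * K) := by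
      field_simp; ring
    linarith
  · have e1 : hub K y = y - K / 2 := by unfold hub; rw [if_neg hyK]
    have e2 : hubd K y = 1 := by unfold hubd; rw [if_neg hyK]
    push Not at hyK
    rw [e1, e2]
    by_cases hzK : max (y + d) 0 ≤ K
    · have h1 : y + d ≤ K := hz'.trans hzK
      have : (max (y + d) 0) ^ 2 / (2 * K) ≤ (y + d) ^ 2 / (2 * K) := by gcongr
      have h2 : (y + d) ^ 2 / (2 * K) ≤ y + d - K / 2 + d ^ 2 / (2 * K) := by
        have : (y + d - K / 2 + d ^ 2 / (2 * K)) - (y + d) ^ 2 / (2 * K)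
          = ((2 * K * (y + d) - K ^ 2 + d ^ 2) - (y + d) ^ 2) / (2 * K) := by
          field_simp
        have h3 : 0 ≤ ((2 * K * (y + d) - K ^ 2 + d ^ 2) - (y + d) ^ 2) / (2 * K) := by
          apply div_nonneg _ (by linarith)
          nlinarith [mul_nonneg (show 0 ≤ y - K by linarith) (show 0 ≤ K - (y + d) by linarith)]
        linarith
      linarith
    · have e3 : hub K (max (y + d) 0) = max (y + d) 0 - K / 2 := by unfold hub; rw [if_neg hzK]
      push Not at hzK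
      have h4 : max (y + d) 0 = y + d := by
        rcases le_total (y + d) 0 with h | h
        · rw [max_eq_right h] at hzK; linarith
        · exact max_eq_left h
      rw [e3, h4]
      have : 0 ≤ d ^ 2 / (2 * K) := by positivity
      linarith

/-- Lipschitz upper bound, monotone -/
theorem hub_sub_le {K y z : ℝ} (hK : 0 < K) (hy : 0 ≤ y) (hyz : y ≤ z) :
    0 ≤ hub K z - hub K y ∧ hub K z - hub K y ≤ z - y := by
  unfold hub
  split_ifs with h1 h2 h2
  · constructor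
    · rw [← sub_div]; apply div_nonneg _ (by linarith); nlinarith
    · rw [← sub_div, div_le_iff₀ (by linarith)]; nlinarith
  · push Not at h2; linarith
  · push Not at h1
    constructor
    · have : y ^ 2 / (2 * K) ≤ K / 2 := by
        rw [div_le_iff₀ (by linarith)]; nlinarith
      linarith
    · have : y - K / 2 ≤ y ^ 2 / (2 * K) := by
        rw [le_div_iff₀ (by linarith)]; nlinarith [sq_nonneg (y - K)]
      linarith
  · constructor <;> linarith

theorem hub_sub_eq {K y z : ℝ} (hy : K < y) (hz : K < z) : hub K z - hub K y = z - y := by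
  unfold hub; rw [if_neg (not_le.2 hy), if_neg (not_le.2 hz)]; ring

theorem exp_bound {x : ℝ} (hx : -1 ≤ x) : Real.exp x ≤ 1 + x + x ^ 2 * Real.exp (max x 0) := by
  rcases le_total x 0 with h | h
  · rw [max_eq_right h, Real.exp_zero, mul_one]
    have := Real.abs_exp_sub_one_sub_id_le (show |x| ≤ 1 by rw [abs_le]; constructor <;> linarith)
    rw [abs_le] at this; linarith [this.2]
  · rw [max_eq_left h]
    have h1 : 1 - x ≤ Real.exp (-x) := by have := Real.add_one_le_exp (-x); linarith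
    have h2 : Real.exp x * Real.exp (-x) = 1 := by rw [← Real.exp_add]; simp
    have h3 : 0 < Real.exp x := Real.exp_pos x
    have h4 : Real.exp x - 1 ≤ x * Real.exp x := by nlinarith
    nlinarith [mul_le_mul_of_nonneg_left h4 h]


noncomputable def Aw (K κ : ℝ) (w : ℝ × ℝ) : ℝ := w.2 + κ * hub K w.1

noncomputable def Dl (K κ t : ℝ) (w : ℝ × ℝ) (s : ℝ) : ℝ :=
  -t + κ * (hub K (max (w.1 + (s - t)) 0) - hub K w.1)

theorem Aw_step_le {K κ t s : ℝ} {w : ℝ × ℝ} (hK : 0 < K) (hκ : 1 ≤ κ) (hw2 : K + t < w.2) :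
    Aw K κ (kwStep w s t) ≤ Aw K κ w + Dl K κ t w s := by
  have e2 : max (w.2 - t) 0 = w.2 - t := max_eq_left (by linarith)
  unfold Aw Dl kwStep
  rw [e2]
  simp only
  have e3 : w.1 + s - t = w.1 + (s - t) := by ring
  rw [e3]
  set y1 := max (w.1 + (s - t)) 0 with hy1
  rcases le_total y1 (w.2 - t) with h | h
  · rw [min_eq_left h, max_eq_right h]; linarith
  · rw [min_eq_right h, max_eq_left h]
    have := hub_sub_eq (show K < w.2 - t by linarith) (show K < y1 by linarith)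
    nlinarith

theorem Dl_le {K κ t s : ℝ} {w : ℝ × ℝ} (hK : 0 < K) (hκ : 0 ≤ κ) (ht : 0 ≤ t) (hs : 0 ≤ s)
    (hw1 : 0 ≤ w.1) : Dl K κ t w s ≤ κ * s := by
  unfold Dl
  have hle : max (w.1 + (s - t)) 0 ≤ w.1 + s := by
    apply max_le <;> linarith
  have : hub K (max (w.1 + (s - t)) 0) - hub K w.1 ≤ s := by
    rcases le_total w.1 (max (w.1 + (s - t)) 0) with h | h
    · have := (hub_sub_le hK hw1 h).2; linarith
    · have := (hub_sub_le hK (le_max_right _ _) h).1; linarith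
  nlinarith

theorem le_Dl {K κ t s : ℝ} {w : ℝ × ℝ} (hK : 0 < K) (hκ : 0 ≤ κ) (ht : 0 ≤ t) (hs : 0 ≤ s)
    (hw1 : 0 ≤ w.1) : -((1 + κ) * t) ≤ Dl K κ t w s := by
  unfold Dl
  have hle : w.1 - t ≤ max (w.1 + (s - t)) 0 := by
    refine le_trans ?_ (le_max_left _ _); linarith
  have : -t ≤ hub K (max (w.1 + (s - t)) 0) - hub K w.1 := by
    rcases le_total w.1 (max (w.1 + (s - t)) 0) with h | h
    · have := (hub_sub_le hK hw1 h).1; linarith
    · have := (hub_sub_le hK (le_max_right _ _) h).2; linarith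
  nlinarith

theorem Dl_le2 {K κ t s : ℝ} {w : ℝ × ℝ} (hK : 0 < K) (hκ : 0 ≤ κ) (hw1 : 0 ≤ w.1) :
    Dl K κ t w s ≤ -t + κ * (hubd K w.1 * (s - t) + (s - t) ^ 2 / (2 * K)) := by
  unfold Dl
  have := hub_taylor (d := s - t) hK hw1
  nlinarith

theorem step_rpow_le {K κ t s B β : ℝ} {w : ℝ × ℝ} (hK : 0 < K) (hκ0 : 0 ≤ κ) (h0 : 0 < β)
    (h1 : β ≤ 1) (hκ : (1 + κ) ^ β = 2) (ht : 0 ≤ t) (hs : 0 ≤ s) (hw1 : 0 ≤ w.1)
    (hw : w.1 ≤ w.2) (hB : κ * K / 2 ≤ B) :
    (Aw K κ (kwStep w s t) + B) ^ β ≤ (Aw K κ w + B) ^ β + s ^ β + 2 * B ^ β := by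
  have hB0 : 0 ≤ B := le_trans (by positivity) hB
  have hw2 : 0 ≤ w.2 := hw1.trans hw
  have a1 : max (w.1 + s - t) 0 ≤ w.1 + s := by apply max_le <;> linarith
  have a2 : max (w.2 - t) 0 ≤ w.2 := by apply max_le <;> linarith
  have hA' : Aw K κ (kwStep w s t) ≤ max (w.1 + s) w.2 + κ * min (w.1 + s) w.2 := by
    unfold Aw kwStep
    simp only
    have b1 : max (max (w.1 + s - t) 0) (max (w.2 - t) 0) ≤ max (w.1 + s) w.2 := max_le_max a1 a2
    have b2 : hub K (min (max (w.1 + s - t) 0) (max (w.2 - t) 0)) ≤ min (w.1 + s) w.2 :=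
      (hub_le hK (le_min (le_max_right _ _) (le_max_right _ _))).trans (min_le_min a1 a2)
    nlinarith
  have hA'0 : 0 ≤ Aw K κ (kwStep w s t) := by
    unfold Aw kwStep
    have := hub_nonneg (y := (min (max (w.1 + s - t) 0) (max (w.2 - t) 0))) hK
    have h3 : 0 ≤ max (max (w.1 + s - t) 0) (max (w.2 - t) 0) := le_max_of_le_left (le_max_right _ _)
    simp only
    nlinarith [mul_nonneg hκ0 this]
  have hm0 : 0 ≤ max (w.1 + s) w.2 + κ * min (w.1 + s) w.2 := hA'0.trans hA'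
  have hlow : w.2 + κ * w.1 ≤ Aw K κ w + B := by
    unfold Aw
    have := le_hub (y := w.1) hK
    nlinarith
  calc (Aw K κ (kwStep w s t) + B) ^ β
      ≤ (max (w.1 + s) w.2 + κ * min (w.1 + s) w.2 + B) ^ β := by
        apply Real.rpow_le_rpow (by linarith) (by linarith) h0.le
    _ ≤ (max (w.1 + s) w.2 + κ * min (w.1 + s) w.2) ^ β + B ^ β :=
        Real.rpow_add_le_add_rpow hm0 hB0 h0.le h1
    _ ≤ (w.2 + κ * w.1) ^ β + s ^ β + B ^ β := by
        have := jump_ineq h0 h1 hκ0 hκ hw1 hw hs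
        linarith
    _ ≤ (Aw K κ w + B) ^ β + s ^ β + B ^ β := by
        have := Real.rpow_le_rpow (by positivity) hlow h0.le
        linarith
    _ ≤ _ := by have : 0 ≤ B ^ β := Real.rpow_nonneg hB0 _
                linarith

/-- the pointwise inequality behind the drift estimate -/
theorem pointwise {K κ t B β θ : ℝ} (hK : 0 < K) (hκ1 : 1 ≤ κ) (h0 : 0 < β)
    (h1 : β < 1) (hκ : (1 + κ) ^ β = 2) (ht : 0 < t) (hB : κ * K / 2 ≤ B) (hB1 : 1 ≤ B)
    (hθ0 : 0 < θ) (hθ1 : θ ≤ 1) :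
    ∃ R0 C : ℝ, 1 ≤ R0 ∧ 0 ≤ C ∧ ∀ (w : ℝ × ℝ) (s : ℝ), 0 ≤ w.1 → w.1 ≤ w.2 → 0 ≤ s →
      R0 ≤ Aw K κ w + B →
      Real.exp (θ * (Aw K κ (kwStep w s t) + B) ^ β) ≤
        Real.exp (θ * (Aw K κ w + B) ^ β) *
        (1 + θ * β * (Aw K κ w + B) ^ (β - 1) *
          (-t + κ * (hubd K w.1 * (s - t) + (s - t) ^ 2 / (2 * K)))
          + C * (Aw K κ w + B) ^ (2 * β - 2) * ((1 + s) ^ 2 * Real.exp (θ * s ^ β))) := by
  have hκ0 : 0 < κ := by linarith
  have h1b : 0 < 1 - β := by linarith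
  set c : ℝ := (1 / κ) ^ (1 / (1 - β)) with hc
  have hcpos : 0 < c := Real.rpow_pos_of_pos (by positivity) _
  have hcpow : c ^ (1 - β) = 1 / κ := by
    rw [hc, ← Real.rpow_mul (by positivity)]
    rw [one_div_mul_cancel h1b.ne', Real.rpow_one]
  set T : ℝ := ((1 + κ) * t) ^ (1 / (1 - β)) with hT
  have hTpos : 0 < T := Real.rpow_pos_of_pos (by positivity) _
  have hTpow : T ^ (1 - β) = (1 + κ) * t := by
    rw [hT, ← Real.rpow_mul (by positivity)]
    rw [one_div_mul_cancel h1b.ne', Real.rpow_one]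
  refine ⟨1 + T + (1 + κ) * t + (1 + κ) * (t + K) + B, 
    ((1 + κ) * (1 + t)) ^ 2 + Real.exp (2 * θ * B ^ β) / c ^ 2, ?_, by positivity, ?_⟩
  · have : 0 ≤ (1 + κ) * t := by positivity
    have : 0 ≤ (1 + κ) * (t + K) := by positivity
    linarith
  intro w s hw1 hw hs hR
  set R := Aw K κ w + B with hRdef
  have hp1 : 0 ≤ (1 + κ) * t := by positivity
  have hp2 : 0 ≤ (1 + κ) * (t + K) := by positivity
  have hR1 : 1 ≤ R := by linarith
  have hRpos : 0 < R := by linarith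
  have hRT : T ≤ R := by linarith
  have hRt : (1 + κ) * t ≤ R := by linarith
  have hw2 : K + t < w.2 := by
    have h2 : Aw K κ w ≤ (1 + κ) * w.2 := by
      unfold Aw
      have := hub_le hK hw1
      nlinarith
    have h3 : (1 + κ) * (t + K) < (1 + κ) * w.2 := by
      have : R = Aw K κ w + B := hRdef
      linarith
    have := lt_of_mul_lt_mul_left h3 (by linarith)
    linarith
  set D := Dl K κ t w s with hD
  have hstep := Aw_step_le (s := s) hK hκ1 hw2
  have hD1 : D ≤ κ * s := Dl_le hK hκ0.le ht.le hs hw1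
  have hD2 : -((1 + κ) * t) ≤ D := le_Dl hK hκ0.le ht.le hs hw1
  have hD3 : D ≤ -t + κ * (hubd K w.1 * (s - t) + (s - t) ^ 2 / (2 * K)) := Dl_le2 hK hκ0.le hw1
  set x := θ * β * R ^ (β - 1) * D with hx
  have hRb : 0 < R ^ (β - 1) := Real.rpow_pos_of_pos hRpos _
  have hθβ : 0 < θ * β := by positivity
  have hθβ1 : θ * β ≤ 1 := by nlinarith
  have hcoef : 0 < θ * β * R ^ (β - 1) := by positivity
  have hRinv : R ^ (β - 1) * R ^ (1 - β) = 1 := by
    rw [← Real.rpow_add hRpos]; simp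
  -- x ≥ -1
  have hx1 : -1 ≤ x := by
    have h3 : (1 + κ) * t ≤ R ^ (1 - β) := by
      rw [← hTpow]; exact Real.rpow_le_rpow hTpos.le hRT h1b.le
    have h4 : R ^ (β - 1) * ((1 + κ) * t) ≤ 1 := by
      calc R ^ (β - 1) * ((1 + κ) * t) ≤ R ^ (β - 1) * R ^ (1 - β) := by gcongr
        _ = 1 := hRinv
    have h5 : θ * β * (R ^ (β - 1) * ((1 + κ) * t)) ≤ 1 := by
      have : 0 ≤ R ^ (β - 1) * ((1 + κ) * t) := by positivity
      nlinarith
    have h6 : θ * β * R ^ (β - 1) * (-((1 + κ) * t)) ≤ x := by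
      rw [hx]; exact mul_le_mul_of_nonneg_left hD2 hcoef.le
    nlinarith
  have hxle : x ≤ θ * β * R ^ (β - 1) *
      (-t + κ * (hubd K w.1 * (s - t) + (s - t) ^ 2 / (2 * K))) := by
    rw [hx]; exact mul_le_mul_of_nonneg_left hD3 hcoef.le
  have hRR : 0 < R ^ (2 * β - 2) := Real.rpow_pos_of_pos hRpos _
  have hes : 0 < Real.exp (θ * s ^ β) := Real.exp_pos _
  set C1 := ((1 + κ) * (1 + t)) ^ 2 with hC1
  set C2 := Real.exp (2 * θ * B ^ β) / c ^ 2 with hC2
  have hC1' : 0 ≤ C1 := by positivity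
  have hC2' : 0 ≤ C2 := by positivity
  suffices hmain : Real.exp (θ * (Aw K κ (kwStep w s t) + B) ^ β) ≤
      Real.exp (θ * R ^ β) * (1 + x + (C1 + C2) * R ^ (2 * β - 2) * ((1 + s) ^ 2 * Real.exp (θ * s ^ β))) by
    refine hmain.trans ?_
    gcongr
  by_cases hsc : s ≤ c * R
  · -- small jump
    have hb1 : (Aw K κ (kwStep w s t) + B) ^ β ≤ R ^ β + β * R ^ (β - 1) * D := by
      have hRD : 0 ≤ R + D := by linarith
      have hA'0 : 0 ≤ Aw K κ (kwStep w s t) := by
        unfold Aw kwStep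
        have := hub_nonneg (y := (min (max (w.1 + s - t) 0) (max (w.2 - t) 0))) hK
        have h3 : 0 ≤ max (max (w.1 + s - t) 0) (max (w.2 - t) 0) :=
          le_max_of_le_left (le_max_right _ _)
        simp only
        nlinarith [mul_nonneg hκ0.le this]
      have h2 : (Aw K κ (kwStep w s t) + B) ^ β ≤ (R + D) ^ β := by
        apply Real.rpow_le_rpow (by linarith) (by linarith) h0.le
      have h3 : (R + D) ^ β ≤ R ^ β + β * R ^ (β - 1) * D := by
        have e1 : R + D = R * (1 + D / R) := by field_simp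
        have h4 : -1 ≤ D / R := by rw [le_div_iff₀ hRpos]; linarith
        rw [e1, Real.mul_rpow hRpos.le (by linarith)]
        have h5 := rpow_one_add_le_one_add_mul_self h4 h0.le h1.le
        have h6 : R ^ (β - 1) = R ^ β / R := by
          rw [Real.rpow_sub_one hRpos.ne']
        calc R ^ β * (1 + D / R) ^ β ≤ R ^ β * (1 + β * (D / R)) := by gcongr
          _ = R ^ β + β * R ^ (β - 1) * D := by rw [h6]; field_simp
      exact h2.trans h3
    have hb2 : Real.exp (θ * (Aw K κ (kwStep w s t) + B) ^ β) ≤ Real.exp (θ * R ^ β) * Real.exp x := by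
      rw [← Real.exp_add]
      apply Real.exp_le_exp.2
      have := mul_le_mul_of_nonneg_left hb1 hθ0.le
      rw [hx]; linarith
    have hxp : max x 0 ≤ θ * s ^ β := by
      apply max_le _ (by positivity)
      have h2 : x ≤ θ * β * R ^ (β - 1) * (κ * s) := by
        rw [hx]; exact mul_le_mul_of_nonneg_left hD1 hcoef.le
      have h3 : R ^ (β - 1) * (κ * s) ≤ s ^ β := by
        rcases eq_or_lt_of_le hs with hs0 | hspos
        · rw [← hs0]; simp [Real.zero_rpow h0.ne']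
        · have h4 : s ^ (1 - β) ≤ (1 / κ) * R ^ (1 - β) := by
            calc s ^ (1 - β) ≤ (c * R) ^ (1 - β) := Real.rpow_le_rpow hs hsc h1b.le
              _ = (1 / κ) * R ^ (1 - β) := by rw [Real.mul_rpow hcpos.le hRpos.le, hcpow]
          have h5 : s = s ^ β * s ^ (1 - β) := by
            rw [← Real.rpow_add hspos]; simp
          have h6 : 0 < s ^ β := Real.rpow_pos_of_pos hspos _
          calc R ^ (β - 1) * (κ * s) = R ^ (β - 1) * κ * (s ^ β * s ^ (1 - β)) := by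
                rw [← h5]; ring
            _ ≤ R ^ (β - 1) * κ * (s ^ β * ((1 / κ) * R ^ (1 - β))) := by gcongr
            _ = (R ^ (β - 1) * R ^ (1 - β)) * s ^ β := by field_simp
            _ = s ^ β := by rw [hRinv, one_mul]
      have h7 : 0 ≤ R ^ (β - 1) * (κ * s) := by positivity
      calc x ≤ θ * β * R ^ (β - 1) * (κ * s) := h2
        _ = θ * (β * (R ^ (β - 1) * (κ * s))) := by ring
        _ ≤ θ * (1 * (R ^ (β - 1) * (κ * s))) := by gcongr
        _ ≤ θ * s ^ β := by rw [one_mul]; gcongr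
    have hexp := exp_bound hx1
    have hx2 : x ^ 2 ≤ C1 * R ^ (2 * β - 2) * (1 + s) ^ 2 := by
      have h2 : D ^ 2 ≤ ((1 + κ) * (1 + t) * (1 + s)) ^ 2 := by
        apply sq_le_sq'
        · have : (1 + κ) * t ≤ (1 + κ) * (1 + t) * (1 + s) := by
            have : (1 + κ) * (1 + t) * (1 + s) = (1 + κ) * t + ((1 + κ) + (1 + κ) * (1 + t) * s) := by ring
            have : 0 ≤ (1 + κ) + (1 + κ) * (1 + t) * s := by positivity
            linarith
          linarith
        · have : κ * s ≤ (1 + κ) * (1 + t) * (1 + s) := by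
            have : (1 + κ) * (1 + t) * (1 + s) = κ * s + (s + (1 + κ) + (1 + κ) * t * (1 + s)) := by ring
            have : 0 ≤ (s + (1 + κ) + (1 + κ) * t * (1 + s)) := by positivity
            linarith
          linarith
      have h3 : (R ^ (β - 1)) ^ 2 = R ^ (2 * β - 2) := by
        rw [← Real.rpow_natCast, ← Real.rpow_mul hRpos.le]; congr 1; push_cast; ring
      have h4 : x ^ 2 = (θ * β) ^ 2 * (R ^ (2 * β - 2) * D ^ 2) := by
        rw [hx, ← h3]; ring
      rw [h4]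
      have h5 : (θ * β) ^ 2 ≤ 1 := by nlinarith
      calc (θ * β) ^ 2 * (R ^ (2 * β - 2) * D ^ 2) ≤ 1 * (R ^ (2 * β - 2) * D ^ 2) := by gcongr
        _ ≤ R ^ (2 * β - 2) * ((1 + κ) * (1 + t) * (1 + s)) ^ 2 := by rw [one_mul]; gcongr
        _ = _ := by rw [hC1]; ring
    refine hb2.trans ?_
    apply mul_le_mul_of_nonneg_left _ (Real.exp_pos _).le
    refine hexp.trans ?_
    have h8 : x ^ 2 * Real.exp (max x 0) ≤ (C1 * R ^ (2 * β - 2) * (1 + s) ^ 2) * Real.exp (θ * s ^ β) := by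
      apply mul_le_mul hx2 (Real.exp_le_exp.2 hxp) (Real.exp_pos _).le (by positivity)
    have h9 : 0 ≤ C2 * R ^ (2 * β - 2) * ((1 + s) ^ 2 * Real.exp (θ * s ^ β)) := by positivity
    nlinarith
  · -- large jump
    push Not at hsc
    have hb1 := step_rpow_le hK hκ0.le h0 h1.le hκ ht.le hs hw1 hw hB
    have hb2 : Real.exp (θ * (Aw K κ (kwStep w s t) + B) ^ β) ≤
        Real.exp (θ * R ^ β) * (Real.exp (2 * θ * B ^ β) * Real.exp (θ * s ^ β)) := by
      rw [← Real.exp_add, ← Real.exp_add]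
      apply Real.exp_le_exp.2
      have := mul_le_mul_of_nonneg_left hb1 hθ0.le
      linarith
    refine hb2.trans ?_
    apply mul_le_mul_of_nonneg_left _ (Real.exp_pos _).le
    have h3 : c ^ 2 ≤ R ^ (2 * β - 2) * (1 + s) ^ 2 := by
      have h4 : (c * R) ^ 2 ≤ (1 + s) ^ 2 := by
        apply pow_le_pow_left₀ (by positivity); linarith
      have h5 : R ^ (2 * β - 2) * R ^ 2 = R ^ (2 * β) := by
        rw [← Real.rpow_natCast R 2, ← Real.rpow_add hRpos]; congr 1; push_cast; ring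
      have h6 : 1 ≤ R ^ (2 * β) := Real.one_le_rpow hR1 (by positivity)
      calc c ^ 2 = c ^ 2 * 1 := by ring
        _ ≤ c ^ 2 * R ^ (2 * β) := by gcongr
        _ = R ^ (2 * β - 2) * (c * R) ^ 2 := by rw [← h5]; ring
        _ ≤ _ := by gcongr
    have h4 : Real.exp (2 * θ * B ^ β) ≤ C2 * (R ^ (2 * β - 2) * (1 + s) ^ 2) := by
      calc Real.exp (2 * θ * B ^ β) = C2 * c ^ 2 := by rw [hC2]; field_simp
        _ ≤ _ := by gcongr
    have h5 : Real.exp (2 * θ * B ^ β) * Real.exp (θ * s ^ β) ≤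
        C2 * (R ^ (2 * β - 2) * (1 + s) ^ 2) * Real.exp (θ * s ^ β) := by gcongr
    have h6 : 0 ≤ C1 * R ^ (2 * β - 2) * ((1 + s) ^ 2 * Real.exp (θ * s ^ β)) := by positivity
    nlinarith

theorem rpow_le_exp {a ε : ℝ} (hε : 0 < ε) (ha : 0 ≤ a) :
    ∃ C : ℝ, 0 ≤ C ∧ ∀ x : ℝ, 0 ≤ x → x ^ a ≤ C * Real.exp (ε * x) := by
  have h := tendsto_rpow_mul_exp_neg_mul_atTop_nhds_zero a ε hε
  have h2 := h.eventually (gt_mem_nhds (show (0:ℝ) < 1 by norm_num))
  obtain ⟨X, hX⟩ := eventually_atTop.1 h2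
  refine ⟨1 + (max X 0) ^ a, by positivity, fun x hx => ?_⟩
  have hpos : 0 ≤ (max X 0) ^ a := by positivity
  rcases le_total X x with h3 | h3
  · have h4 := hX x h3
    have h5 : Real.exp (-ε * x) * Real.exp (ε * x) = 1 := by rw [← Real.exp_add]; simp
    have h6 : 0 < Real.exp (ε * x) := Real.exp_pos _
    calc x ^ a = (x ^ a * Real.exp (-ε * x)) * Real.exp (ε * x) := by rw [mul_assoc, h5, mul_one]
      _ ≤ 1 * Real.exp (ε * x) := by gcongr
      _ ≤ _ := by gcongr; linarith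
  · have h4 : x ^ a ≤ (max X 0) ^ a := Real.rpow_le_rpow hx (h3.trans (le_max_left _ _)) ha
    have h6 : 1 ≤ Real.exp (ε * x) := Real.one_le_exp (by positivity)
    nlinarith

theorem sq_le_exp {β ε : ℝ} (hβ : 0 < β) (hε : 0 < ε) :
    ∃ C : ℝ, 0 ≤ C ∧ ∀ s : ℝ, 0 ≤ s → (1 + s) ^ 2 ≤ C * Real.exp (ε * s ^ β) := by
  obtain ⟨C, hC, h⟩ := rpow_le_exp (a := 2 / β) hε (by positivity)
  refine ⟨2 + 2 * C, by positivity, fun s hs => ?_⟩
  have h1 := h (s ^ β) (by positivity)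
  have h2 : (s ^ β) ^ (2 / β) = s ^ 2 := by
    rw [← Real.rpow_mul hs, mul_div_cancel₀ _ hβ.ne']
    exact_mod_cast Real.rpow_natCast s 2
  rw [h2] at h1
  have h3 : 1 ≤ Real.exp (ε * s ^ β) := Real.one_le_exp (by positivity)
  nlinarith [sq_nonneg (s - 1)]

/-- drift inequality for large workloads -/
theorem drift {S : Measure ℝ} [IsProbabilityMeasure S] {K κ t B β θ m V c0 : ℝ}
    (hS0 : ∀ᵐ s ∂S, 0 ≤ s) (hint : Integrable (fun s => (1 + s) ^ 2 * Real.exp (θ * s ^ β)) S)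
    (hK : 0 < K) (hκ1 : 1 ≤ κ) (h0 : 0 < β) (h1 : β < 1) (hκ : (1 + κ) ^ β = 2) (ht : 0 < t)
    (hB : κ * K / 2 ≤ B) (hB1 : 1 ≤ B) (hθ0 : 0 < θ) (hθ1 : θ ≤ 1)
    (hi1 : Integrable (fun s => s) S) (hi2 : Integrable (fun s => (s - t) ^ 2) S)
    (hm : ∫ s, s ∂S = m) (hV : ∫ s, (s - t) ^ 2 ∂S = V) (hmt : t ≤ m) (hc0 : 0 < c0)
    (hneg : -t + κ * ((m - t) + V / (2 * K)) ≤ -c0) :
    ∃ R1 c1 : ℝ, 1 ≤ R1 ∧ 0 < c1 ∧ ∀ w : ℝ × ℝ, 0 ≤ w.1 → w.1 ≤ w.2 → R1 ≤ Aw K κ w + B →
      ∫ s, Real.exp (θ * (Aw K κ (kwStep w s t) + B) ^ β) ∂S ≤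
        Real.exp (θ * (Aw K κ w + B) ^ β) * (1 - c1 * (Aw K κ w + B) ^ (β - 1)) := by
  obtain ⟨R0, C, hR0, hC, hpt⟩ := pointwise hK hκ1 h0 h1 hκ ht hB hB1 hθ0 hθ1
  set M := ∫ s, (1 + s) ^ 2 * Real.exp (θ * s ^ β) ∂S with hM
  have hM0 : 0 ≤ M := integral_nonneg_of_ae (by
    filter_upwards [hS0] with s hs
    simp only [Pi.zero_apply]; positivity)
  have h1b : 0 < 1 - β := by linarith
  have hκ0 : 0 < κ := by linarith
  set T : ℝ := (C * M / (θ * β * c0 / 2)) ^ (1 / (1 - β)) with hT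
  have hT0 : 0 ≤ C * M / (θ * β * c0 / 2) := by positivity
  have hTpow : T ^ (1 - β) = C * M / (θ * β * c0 / 2) := by
    rw [hT, ← Real.rpow_mul hT0, one_div_mul_cancel h1b.ne', Real.rpow_one]
  have hT' : 0 ≤ T := Real.rpow_nonneg hT0 _
  refine ⟨R0 + T, θ * β * c0 / 2, by linarith, by positivity, fun w hw1 hw hR => ?_⟩
  set R := Aw K κ w + B with hRdef
  have hRpos : 0 < R := by linarith
  have hRb : 0 < R ^ (β - 1) := Real.rpow_pos_of_pos hRpos _
  have hRinv : R ^ (β - 1) * R ^ (1 - β) = 1 := by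
    rw [← Real.rpow_add hRpos]; simp
  set D : ℝ → ℝ := fun s => -t + κ * (hubd K w.1 * (s - t) + (s - t) ^ 2 / (2 * K)) with hD
  have hDint : Integrable D S := by
    have j1 : Integrable (fun s : ℝ => s - t) S := hi1.sub (integrable_const t)
    have j2 : Integrable (fun s : ℝ => hubd K w.1 * (s - t) + (s - t) ^ 2 / (2 * K)) S :=
      (j1.const_mul _).add (hi2.div_const _)
    exact (integrable_const (-t)).add (j2.const_mul κ)
  have hDval : ∫ s, D s ∂S = -t + κ * (hubd K w.1 * (m - t) + V / (2 * K)) := by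
    have j1 : Integrable (fun s : ℝ => s - t) S := hi1.sub (integrable_const t)
    have j2 : Integrable (fun s : ℝ => hubd K w.1 * (s - t)) S := j1.const_mul _
    have j3 : Integrable (fun s : ℝ => (s - t) ^ 2 / (2 * K)) S := hi2.div_const _
    have e0 : ∫ s, (s - t) ∂S = m - t := by
      rw [integral_sub hi1 (integrable_const t), hm]; simp
    have j4 : Integrable (fun s : ℝ => κ * (hubd K w.1 * (s - t) + (s - t) ^ 2 / (2 * K))) S :=
      (j2.add j3).const_mul κ
    rw [hD]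
    simp only
    rw [integral_add (integrable_const (-t)) j4, integral_const_mul]
    have e1 : ∫ s, (hubd K w.1 * (s - t) + (s - t) ^ 2 / (2 * K)) ∂S
        = hubd K w.1 * (m - t) + V / (2 * K) := by
      rw [integral_add j2 j3, integral_const_mul, integral_div, e0, hV]
    rw [e1]; simp
  have hDle : ∫ s, D s ∂S ≤ -c0 := by
    rw [hDval]
    have a1 : hubd K w.1 * (m - t) ≤ 1 * (m - t) := by
      apply mul_le_mul_of_nonneg_right (hubd_le hK); linarith
    nlinarith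
  have hgint : Integrable (fun s => Real.exp (θ * R ^ β) *
      (1 + θ * β * R ^ (β - 1) * D s + C * R ^ (2 * β - 2) * ((1 + s) ^ 2 * Real.exp (θ * s ^ β)))) S := by
    apply Integrable.const_mul
    exact ((integrable_const (1:ℝ)).add (hDint.const_mul _)).add (hint.const_mul _)
  have hmono : ∫ s, Real.exp (θ * (Aw K κ (kwStep w s t) + B) ^ β) ∂S ≤
      ∫ s, Real.exp (θ * R ^ β) *
      (1 + θ * β * R ^ (β - 1) * D s + C * R ^ (2 * β - 2) * ((1 + s) ^ 2 * Real.exp (θ * s ^ β))) ∂S := by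
    apply integral_mono_of_nonneg (Eventually.of_forall fun s => (Real.exp_pos _).le) hgint
    filter_upwards [hS0] with s hs
    exact hpt w s hw1 hw hs (by linarith)
  refine hmono.trans ?_
  have hval : ∫ s, Real.exp (θ * R ^ β) *
      (1 + θ * β * R ^ (β - 1) * D s + C * R ^ (2 * β - 2) * ((1 + s) ^ 2 * Real.exp (θ * s ^ β))) ∂S
      = Real.exp (θ * R ^ β) * (1 + θ * β * R ^ (β - 1) * (∫ s, D s ∂S) + C * R ^ (2 * β - 2) * M) := by
    have j1 : Integrable (fun s : ℝ => θ * β * R ^ (β - 1) * D s) S := hDint.const_mul _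
    have j2 : Integrable (fun s : ℝ => 1 + θ * β * R ^ (β - 1) * D s) S :=
      (integrable_const (1:ℝ)).add j1
    have j3 : Integrable (fun s : ℝ => C * R ^ (2 * β - 2) * ((1 + s) ^ 2 * Real.exp (θ * s ^ β))) S :=
      hint.const_mul _
    rw [integral_const_mul, integral_add j2 j3, integral_add (integrable_const (1:ℝ)) j1,
      integral_const_mul, integral_const_mul]
    simp [hM]
  rw [hval]
  apply mul_le_mul_of_nonneg_left _ (Real.exp_pos _).le
  have hcoef : 0 < θ * β * R ^ (β - 1) := by positivity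
  have k1 : θ * β * R ^ (β - 1) * (∫ s, D s ∂S) ≤ θ * β * R ^ (β - 1) * (-c0) :=
    mul_le_mul_of_nonneg_left hDle hcoef.le
  have k2 : C * R ^ (2 * β - 2) * M ≤ θ * β * c0 / 2 * R ^ (β - 1) := by
    have e1 : R ^ (2 * β - 2) = R ^ (β - 1) * R ^ (β - 1) := by
      rw [← Real.rpow_add hRpos]; congr 1; ring
    have e2 : C * M ≤ θ * β * c0 / 2 * R ^ (1 - β) := by
      have : T ^ (1 - β) ≤ R ^ (1 - β) := Real.rpow_le_rpow hT' (by linarith) h1b.le
      rw [hTpow, div_le_iff₀ (by positivity)] at this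
      linarith
    calc C * R ^ (2 * β - 2) * M = (C * M) * (R ^ (β - 1) * R ^ (β - 1)) := by rw [e1]; ring
      _ ≤ (θ * β * c0 / 2 * R ^ (1 - β)) * (R ^ (β - 1) * R ^ (β - 1)) := by gcongr
      _ = θ * β * c0 / 2 * R ^ (β - 1) * (R ^ (β - 1) * R ^ (1 - β)) := by ring
      _ = _ := by rw [hRinv, mul_one]
  linarith

/-- crude bound valid everywhere -/
theorem crude {S : Measure ℝ} [IsProbabilityMeasure S] {K κ t B β θ : ℝ}
    (hS0 : ∀ᵐ s ∂S, 0 ≤ s) (hint : Integrable (fun s => Real.exp (θ * s ^ β)) S)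
    (hK : 0 < K) (hκ1 : 1 ≤ κ) (h0 : 0 < β) (h1 : β < 1) (hκ : (1 + κ) ^ β = 2) (ht : 0 < t)
    (hB : κ * K / 2 ≤ B) (hθ0 : 0 < θ) (w : ℝ × ℝ) (hw1 : 0 ≤ w.1) (hw : w.1 ≤ w.2) :
      Integrable (fun s => Real.exp (θ * (Aw K κ (kwStep w s t) + B) ^ β)) S ∧
      ∫ s, Real.exp (θ * (Aw K κ (kwStep w s t) + B) ^ β) ∂S ≤
        Real.exp (θ * (Aw K κ w + B) ^ β) * (Real.exp (2 * θ * B ^ β) *
          ∫ s, Real.exp (θ * s ^ β) ∂S) := by
  have hle : ∀ᵐ s ∂S, Real.exp (θ * (Aw K κ (kwStep w s t) + B) ^ β) ≤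
      Real.exp (θ * (Aw K κ w + B) ^ β) * (Real.exp (2 * θ * B ^ β) * Real.exp (θ * s ^ β)) := by
    filter_upwards [hS0] with s hs
    rw [← Real.exp_add, ← Real.exp_add]
    apply Real.exp_le_exp.2
    have := mul_le_mul_of_nonneg_left
      (step_rpow_le (t := t) hK (by linarith) h0 h1.le hκ ht.le hs hw1 hw hB) hθ0.le
    linarith
  have hg : Integrable (fun s => Real.exp (θ * (Aw K κ w + B) ^ β) *
      (Real.exp (2 * θ * B ^ β) * Real.exp (θ * s ^ β))) S := (hint.const_mul _).const_mul _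
  have hmeas : Measurable (fun s => Real.exp (θ * (Aw K κ (kwStep w s t) + B) ^ β)) := by
    unfold Aw kwStep hub
    have : Measurable (fun y : ℝ => if y ≤ K then y ^ 2 / (2 * K) else y - K / 2) :=
      Measurable.ite measurableSet_Iic (by fun_prop) (by fun_prop)
    have h2 : Measurable (fun s : ℝ => min (max (w.1 + s - t) 0) (max (w.2 - t) 0)) := by fun_prop
    have h3 := this.comp h2
    have h4 : Measurable (fun s : ℝ => max (max (w.1 + s - t) 0) (max (w.2 - t) 0)) := by fun_prop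
    exact Real.measurable_exp.comp (((((h4.add (h3.const_mul κ)).add_const B)).pow_const β).const_mul θ)
  refine ⟨?_, ?_⟩
  · refine hg.mono' hmeas.aestronglyMeasurable ?_
    filter_upwards [hle] with s hs
    rw [Real.norm_of_nonneg (Real.exp_pos _).le]; exact hs
  · have := integral_mono_of_nonneg (Eventually.of_forall fun s => (Real.exp_pos _).le) hg hle
    rw [integral_const_mul, integral_const_mul] at this
    exact this

open scoped ENNReal in
/-- comparison theorem: drift inequality plus invariance bounds the mean of f -/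
theorem lyap {X : Type*} [MeasurableSpace X] {μ : Measure X} [IsProbabilityMeasure μ]
    {S : Measure ℝ} [IsProbabilityMeasure S] {Φ : X × ℝ → X} (hΦ : Measurable Φ)
    (hinv : (μ.prod S).map Φ = μ) {G f : X → ℝ≥0∞} (hG : Measurable G) (hf : Measurable f)
    (hGfin : ∀ w, G w ≠ ⊤) {b : ℝ≥0∞}
    (h : ∀ᵐ w ∂μ, (∫⁻ s, G (Φ (w, s)) ∂S) + f w ≤ G w + b) :
    ∫⁻ w, f w ∂μ ≤ b := by
  have key : ∀ n : ℕ, ∫⁻ w, ({w | G w ≤ (n : ℝ≥0∞)}.indicator f w) ∂μ ≤ b := by
    intro n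
    have hGn : Measurable (fun w => min (G w) (n : ℝ≥0∞)) := hG.min measurable_const
    have hset : MeasurableSet {w | G w ≤ (n : ℝ≥0∞)} := hG measurableSet_Iic
    have I1 : ∫⁻ w, min (G w) (n : ℝ≥0∞) ∂μ
        = ∫⁻ w, ∫⁻ s, min (G (Φ (w, s))) (n : ℝ≥0∞) ∂S ∂μ := by
      conv_lhs => rw [← hinv]
      rw [lintegral_map hGn hΦ]
      exact lintegral_prod (fun z : X × ℝ => min (G (Φ z)) (n : ℝ≥0∞)) (hGn.comp hΦ).aemeasurable
    have I2 : ∀ᵐ w ∂μ, (∫⁻ s, min (G (Φ (w, s))) (n : ℝ≥0∞) ∂S) +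
        ({w | G w ≤ (n : ℝ≥0∞)}.indicator f w) ≤ min (G w) (n : ℝ≥0∞) + b := by
      filter_upwards [h] with w hw
      by_cases hc : G w ≤ (n : ℝ≥0∞)
      · rw [indicator_of_mem (show w ∈ {w | G w ≤ (n : ℝ≥0∞)} from hc), min_eq_left hc]
        refine le_trans ?_ hw
        gcongr
        exact min_le_left _ _
      · rw [indicator_of_notMem (show w ∉ {w | G w ≤ (n : ℝ≥0∞)} from hc), add_zero,
          min_eq_right (not_le.1 hc).le]
        calc ∫⁻ s, min (G (Φ (w, s))) (n : ℝ≥0∞) ∂S ≤ ∫⁻ _, (n : ℝ≥0∞) ∂S :=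
              lintegral_mono fun s => min_le_right _ _
          _ = n := by simp
          _ ≤ n + b := le_self_add
    have I3 := lintegral_mono_ae I2
    have hm1 : Measurable (fun w => ∫⁻ s, min (G (Φ (w, s))) (n : ℝ≥0∞) ∂S) :=
      (hGn.comp hΦ).lintegral_prod_right'
    rw [lintegral_add_left hm1, lintegral_add_left hGn, ← I1] at I3
    have hfin : ∫⁻ w, min (G w) (n : ℝ≥0∞) ∂μ ≠ ⊤ := by
      have : ∫⁻ w, min (G w) (n : ℝ≥0∞) ∂μ ≤ n := by
        calc _ ≤ ∫⁻ _, (n : ℝ≥0∞) ∂μ := lintegral_mono fun s => min_le_right _ _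
          _ = n := by simp
      exact ne_top_of_le_ne_top (ENNReal.natCast_ne_top n) this
    have I4 := (ENNReal.add_le_add_iff_left hfin).1 I3
    simpa using I4
  have hsup : ∀ w, f w = ⨆ n : ℕ, ({w | G w ≤ (n : ℝ≥0∞)}.indicator f w) := by
    intro w
    apply le_antisymm
    · obtain ⟨n, hn⟩ := ENNReal.exists_nat_gt (hGfin w)
      refine le_trans ?_ (le_iSup _ n)
      rw [indicator_of_mem (show w ∈ {w | G w ≤ (n : ℝ≥0∞)} from hn.le)]
    · apply iSup_le
      intro n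
      exact indicator_le_self' (fun _ _ => bot_le) w
  rw [lintegral_congr hsup, lintegral_iSup]
  · exact iSup_le key
  · intro n
    exact hf.indicator (hG measurableSet_Iic)
  · intro n m hnm w
    apply indicator_le_indicator_of_subset
    · intro w hw
      have h2 : (n : ℝ≥0∞) ≤ (m : ℝ≥0∞) := by exact_mod_cast hnm
      exact le_trans (show G w ≤ (n : ℝ≥0∞) from hw) h2
    · intro _; exact bot_le

theorem measurable_hub (K : ℝ) : Measurable (hub K) := by
  unfold hub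
  exact Measurable.ite measurableSet_Iic (by fun_prop) (by fun_prop)

theorem measurable_Aw (K κ : ℝ) : Measurable (Aw K κ) := by
  unfold Aw
  exact measurable_snd.add (((measurable_hub K).comp measurable_fst).const_mul κ)

theorem measurable_step (t : ℝ) : Measurable (fun p : (ℝ × ℝ) × ℝ => kwStep p.1 p.2 t) := by
  unfold kwStep
  fun_prop

theorem integrable_sq {S : Measure ℝ} [IsProbabilityMeasure S] {β θ : ℝ} (hβ : 0 < β) (hθ : θ < 1)
    (hS0 : ∀ᵐ s ∂S, 0 ≤ s)
    (hexp : ∀ θ' : ℝ, θ' < 1 → Integrable (fun s => Real.exp (θ' * s ^ β)) S) :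
    Integrable (fun s => (1 + s) ^ 2 * Real.exp (θ * s ^ β)) S := by
  obtain ⟨C, hC, h⟩ := sq_le_exp hβ (show 0 < (1 - θ) / 2 by linarith)
  have hg := (hexp ((1 + θ) / 2) (by linarith)).const_mul C
  refine hg.mono' ?_ ?_
  · have : Measurable (fun s : ℝ => (1 + s) ^ 2 * Real.exp (θ * s ^ β)) := by fun_prop
    exact this.aestronglyMeasurable
  · filter_upwards [hS0] with s hs
    have h1 := h s hs
    rw [Real.norm_of_nonneg (by positivity)]
    calc (1 + s) ^ 2 * Real.exp (θ * s ^ β)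
        ≤ (C * Real.exp ((1 - θ) / 2 * s ^ β)) * Real.exp (θ * s ^ β) := by gcongr
      _ = C * Real.exp ((1 + θ) / 2 * s ^ β) := by
          rw [mul_assoc, ← Real.exp_add]; congr 2; ring

/-- Lyapunov pair -/
theorem pair {S : Measure ℝ} [IsProbabilityMeasure S]
    {κ t β m : ℝ} (hS0 : ∀ᵐ s ∂S, 0 ≤ s)
    (hexp : ∀ θ' : ℝ, θ' < 1 → Integrable (fun s => Real.exp (θ' * s ^ β)) S)
    (hκ1 : 1 ≤ κ) (h0 : 0 < β) (h1 : β < 1) (hκ : (1 + κ) ^ β = 2) (ht : 0 < t)
    (hm : ∫ s, s ∂S = m) (hmt : t ≤ m) (hneg : κ * (m - t) < t)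
    {θ' : ℝ} (hθ'0 : 0 < θ') (hθ'1 : θ' < 1) :
    ∃ (G f : ℝ × ℝ → ENNReal) (b : ENNReal) (c : ℝ), Measurable G ∧ Measurable f ∧
      (∀ w, G w ≠ ⊤) ∧ b ≠ ⊤ ∧ 0 < c ∧
      (∀ w : ℝ × ℝ, 0 ≤ w.1 → w.1 ≤ w.2 → (∫⁻ s, G (kwStep w s t) ∂S) + f w ≤ G w + b) ∧
      (∀ w : ℝ × ℝ, 0 ≤ w.1 → w.1 ≤ w.2 →
        ENNReal.ofReal (c * Real.exp (2 * θ' * w.1 ^ β)) ≤ f w ∧ ENNReal.ofReal (c * w.2) ≤ f w) := by
  set θ := (1 + θ') / 2 with hθdef
  have hθ0 : 0 < θ := by rw [hθdef]; linarith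
  have hθ1 : θ < 1 := by rw [hθdef]; linarith
  have hθθ' : 0 < θ - θ' := by rw [hθdef]; linarith
  have hκ0 : 0 < κ := by linarith
  have hint := integrable_sq h0 hθ1 hS0 hexp
  have hint0 := integrable_sq h0 (show (0:ℝ) < 1 by norm_num) hS0 hexp
  have hint0' : Integrable (fun s : ℝ => (1 + s) ^ 2) S := by simpa using hint0
  have hi1 : Integrable (fun s : ℝ => s) S := by
    refine hint0'.mono' (by fun_prop) ?_
    filter_upwards [hS0] with s hs
    rw [Real.norm_of_nonneg hs]; nlinarith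
  have hi2 : Integrable (fun s : ℝ => (s - t) ^ 2) S := by
    have : (fun s : ℝ => (s - t) ^ 2) = fun s : ℝ => (1 + s) ^ 2 - 2 * (1 + t) * s + (t ^ 2 - 1) := by
      funext s; ring
    rw [this]
    exact (hint0'.sub (hi1.const_mul _)).add (integrable_const _)
  set V := ∫ s, (s - t) ^ 2 ∂S with hV
  have hV0 : 0 ≤ V := integral_nonneg fun s => sq_nonneg _
  set c0 := (t - κ * (m - t)) / 2 with hc0def
  have hc0 : 0 < c0 := by rw [hc0def]; linarith
  set K := κ * V / (2 * c0) + 1 with hKdef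
  have hK : 0 < K := by positivity
  set B := 1 + κ * K / 2 with hBdef
  have hB : κ * K / 2 ≤ B := by rw [hBdef]; linarith
  have hB1 : 1 ≤ B := by rw [hBdef]; have : 0 ≤ κ * K / 2 := by positivity
                         linarith
  have hneg' : -t + κ * ((m - t) + V / (2 * K)) ≤ -c0 := by
    have : κ * (V / (2 * K)) ≤ c0 := by
      rw [← mul_div_assoc, div_le_iff₀ (by positivity)]
      have : κ * V ≤ c0 * (2 * (κ * V / (2 * c0))) := by
        have : c0 * (2 * (κ * V / (2 * c0))) = κ * V := by field_simp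
        linarith
      rw [hKdef]; nlinarith
    have h3 : t - κ * (m - t) = 2 * c0 := by rw [hc0def]; ring
    nlinarith
  obtain ⟨R1, c1, hR1, hc1, hdr⟩ := drift hS0 hint hK hκ1 h0 h1 hκ ht hB hB1 hθ0 hθ1.le hi1 hi2 hm
    rfl hmt hc0 hneg'
  set M0 := ∫ s, Real.exp (θ * s ^ β) ∂S with hM0
  have hM00 : 0 ≤ M0 := integral_nonneg fun s => (Real.exp_pos _).le
  set E0 := Real.exp (2 * θ * B ^ β) * M0 with hE0
  have hE00 : 0 ≤ E0 := by positivity
  set b := Real.exp (θ * R1 ^ β) * (E0 + c1) with hb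
  have hb0 : 0 ≤ b := by positivity
  have hRge : ∀ w : ℝ × ℝ, 0 ≤ w.1 → w.1 ≤ w.2 → (1 + κ) * w.1 + 1 ≤ Aw K κ w + B := by
    intro w hw1 hw
    unfold Aw
    have := le_hub (y := w.1) hK
    rw [hBdef]; nlinarith
  have hreal : ∀ w : ℝ × ℝ, 0 ≤ w.1 → w.1 ≤ w.2 →
      (∫ s, Real.exp (θ * (Aw K κ (kwStep w s t) + B) ^ β) ∂S) +
        c1 * (Aw K κ w + B) ^ (β - 1) * Real.exp (θ * (Aw K κ w + B) ^ β) ≤
      Real.exp (θ * (Aw K κ w + B) ^ β) + b := by
    intro w hw1 hw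
    set R := Aw K κ w + B with hR
    have hRg := hRge w hw1 hw
    have hR1' : 1 ≤ R := by nlinarith [mul_nonneg hκ0.le hw1]
    have hRpos : 0 < R := by linarith
    by_cases hc : R1 ≤ R
    · have := hdr w hw1 hw hc
      rw [← hR] at this
      nlinarith
    · push Not at hc
      have h2 := (crude hS0 (hexp θ hθ1) hK hκ1 h0 h1 hκ ht hB hθ0 w hw1 hw).2
      rw [← hR, ← hM0, ← hE0] at h2
      have h3 : Real.exp (θ * R ^ β) ≤ Real.exp (θ * R1 ^ β) := by
        apply Real.exp_le_exp.2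
        have := Real.rpow_le_rpow hRpos.le hc.le h0.le
        gcongr
      have h4 : R ^ (β - 1) ≤ 1 := Real.rpow_le_one_of_one_le_of_nonpos hR1' (by linarith)
      have h5 : 0 ≤ R ^ (β - 1) := Real.rpow_nonneg hRpos.le _
      have h6 : c1 * R ^ (β - 1) * Real.exp (θ * R ^ β) ≤ c1 * 1 * Real.exp (θ * R1 ^ β) := by
        gcongr
      have h7 : Real.exp (θ * R ^ β) * E0 ≤ Real.exp (θ * R1 ^ β) * E0 := by gcongr
      have h8 := Real.exp_pos (θ * R ^ β)
      rw [hb]; nlinarith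
  have hGm : Measurable (fun w : ℝ × ℝ => ENNReal.ofReal (Real.exp (θ * (Aw K κ w + B) ^ β))) :=
    (Real.measurable_exp.comp ((((measurable_Aw K κ).add_const B).pow_const β).const_mul θ)).ennreal_ofReal
  have hfm : Measurable (fun w : ℝ × ℝ => ENNReal.ofReal (c1 * (Aw K κ w + B) ^ (β - 1) *
      Real.exp (θ * (Aw K κ w + B) ^ β))) :=
    (((((measurable_Aw K κ).add_const B).pow_const (β - 1)).const_mul c1).mul
      (Real.measurable_exp.comp ((((measurable_Aw K κ).add_const B).pow_const β).const_mul θ))).ennreal_ofReal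
  obtain ⟨C4, hC4, hC4'⟩ := sq_le_exp h0 hθθ'
  have hC41 : 0 < C4 := by
    have := hC4' 0 le_rfl
    rw [Real.zero_rpow h0.ne'] at this
    simp at this; linarith
  obtain ⟨C5, hC5, hC5'⟩ := sq_le_exp h0 hθ'0
  refine ⟨_, _, ENNReal.ofReal b, c1 / C4 / (1 + C5), hGm, hfm, fun w => ENNReal.ofReal_ne_top,
    ENNReal.ofReal_ne_top, by positivity, ?_, ?_⟩
  · intro w hw1 hw
    have hc := crude hS0 (hexp θ hθ1) hK hκ1 h0 h1 hκ ht hB hθ0 w hw1 hw
    rw [← ofReal_integral_eq_lintegral_ofReal hc.1 (Eventually.of_forall fun s => (Real.exp_pos _).le)]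
    rw [← ENNReal.ofReal_add (integral_nonneg fun s => (Real.exp_pos _).le), ← ENNReal.ofReal_add
      (Real.exp_pos _).le hb0]
    · exact ENNReal.ofReal_le_ofReal (hreal w hw1 hw)
    · have hRg := hRge w hw1 hw
      have : 0 ≤ Aw K κ w + B := by nlinarith [mul_nonneg hκ0.le hw1]
      positivity
  · intro w hw1 hw
    have hRg := hRge w hw1 hw
    have hw2 : 0 ≤ w.2 := hw1.trans hw
    have hR2 : w.2 ≤ Aw K κ w + B := by
      unfold Aw
      have := hub_nonneg (y := w.1) hK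
      nlinarith [mul_nonneg hκ0.le this]
    set R := Aw K κ w + B with hR
    have hR1' : 1 ≤ R := by nlinarith [mul_nonneg hκ0.le hw1]
    have hRpos : 0 < R := by linarith
    have e1 : 2 * w.1 ^ β ≤ R ^ β := by
      rw [← hκ, ← Real.mul_rpow (by linarith) hw1]
      apply Real.rpow_le_rpow (by positivity) _ h0.le
      nlinarith
    have e2 : R ≤ C4 * Real.exp ((θ - θ') * R ^ β) := by
      have := hC4' R hRpos.le
      nlinarith
    have e3 : R⁻¹ ≤ R ^ (β - 1) := by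
      rw [← Real.rpow_neg_one]
      exact Real.rpow_le_rpow_of_exponent_le hR1' (by linarith)
    have e4 : Real.exp (θ * R ^ β) = Real.exp ((θ - θ') * R ^ β) * Real.exp (θ' * R ^ β) := by
      rw [← Real.exp_add]; congr 1; ring
    have e5 : 1 / C4 ≤ R ^ (β - 1) * Real.exp ((θ - θ') * R ^ β) := by
      have h3 : 1 / C4 ≤ R⁻¹ * Real.exp ((θ - θ') * R ^ β) := by
        rw [div_le_iff₀ hC41, inv_mul_eq_div, div_mul_eq_mul_div, le_div_iff₀ hRpos]
        linarith
      have h4 : 0 < Real.exp ((θ - θ') * R ^ β) := Real.exp_pos _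
      exact h3.trans (by gcongr)
    have e6 : Real.exp (2 * θ' * w.1 ^ β) ≤ Real.exp (θ' * R ^ β) := by
      apply Real.exp_le_exp.2; nlinarith
    have e7 : c1 / C4 * Real.exp (θ' * R ^ β) ≤ c1 * R ^ (β - 1) * Real.exp (θ * R ^ β) := by
      calc c1 / C4 * Real.exp (θ' * R ^ β) = c1 * (1 / C4) * Real.exp (θ' * R ^ β) := by ring
        _ ≤ c1 * (R ^ (β - 1) * Real.exp ((θ - θ') * R ^ β)) * Real.exp (θ' * R ^ β) := by gcongr
        _ = _ := by rw [e4]; ring
    have e8 : c1 / C4 / (1 + C5) ≤ c1 / C4 := by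
      apply div_le_self (by positivity); linarith
    constructor
    · apply ENNReal.ofReal_le_ofReal
      refine le_trans ?_ e7
      gcongr
    · apply ENNReal.ofReal_le_ofReal
      refine le_trans ?_ e7
      have h5 := hC5' R hRpos.le
      have h6 : R ≤ (1 + C5) * Real.exp (θ' * R ^ β) := by
        have := Real.exp_pos (θ' * R ^ β)
        nlinarith
      calc c1 / C4 / (1 + C5) * w.2 ≤ c1 / C4 / (1 + C5) * ((1 + C5) * Real.exp (θ' * R ^ β)) := by
            apply mul_le_mul_of_nonneg_left (hR2.trans h6) (by positivity)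
        _ = c1 / C4 * Real.exp (θ' * R ^ β) := by field_simp

/-- upper tail bound for the smaller workload -/
theorem upper {S : Measure ℝ} [IsProbabilityMeasure S] {μ : Measure (ℝ × ℝ)} [IsProbabilityMeasure μ]
    {κ t β m : ℝ} (hS0 : ∀ᵐ s ∂S, 0 ≤ s)
    (hexp : ∀ θ' : ℝ, θ' < 1 → Integrable (fun s => Real.exp (θ' * s ^ β)) S)
    (hκ1 : 1 ≤ κ) (h0 : 0 < β) (h1 : β < 1) (hκ : (1 + κ) ^ β = 2) (ht : 0 < t)
    (hm : ∫ s, s ∂S = m) (hmt : t ≤ m) (hneg : κ * (m - t) < t)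
    (hord : ∀ᵐ w ∂μ, 0 ≤ w.1 ∧ w.1 ≤ w.2)
    (hinv : (μ.prod S).map (fun p => kwStep p.1 p.2 t) = μ) {θ' : ℝ} (hθ'0 : 0 < θ') (hθ'1 : θ' < 1) :
    ∃ C : ℝ, 0 ≤ C ∧ ∀ x : ℝ, 0 ≤ x → μ.real {w | x < w.1} ≤ C * Real.exp (-(2 * θ' * x ^ β)) := by
  obtain ⟨G, f, b, c, hGm, hfm, hG, hb, hc, hdr, hlow⟩ :=
    pair hS0 hexp hκ1 h0 h1 hκ ht hm hmt hneg hθ'0 hθ'1
  have hly := lyap (measurable_step t) hinv hGm hfm hG (b := b) (by
    filter_upwards [hord] with w hw
    exact hdr w hw.1 hw.2)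
  refine ⟨b.toReal / c, by positivity, fun x hx => ?_⟩
  have hsub : μ {w | x < w.1} ≤ μ {w | ENNReal.ofReal (c * Real.exp (2 * θ' * x ^ β)) ≤ f w} := by
    apply measure_mono_ae
    filter_upwards [hord] with w hw hxw
    have hxw' : x < w.1 := hxw
    refine le_trans (ENNReal.ofReal_le_ofReal ?_) (hlow w hw.1 hw.2).1
    have : x ^ β ≤ w.1 ^ β := Real.rpow_le_rpow hx hxw'.le h0.le
    gcongr
  have hmark := mul_meas_ge_le_lintegral hfm (ENNReal.ofReal (c * Real.exp (2 * θ' * x ^ β))) (μ := μ)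
  have h5 : ENNReal.ofReal (c * Real.exp (2 * θ' * x ^ β)) * μ {w | x < w.1} ≤ b :=
    (by gcongr : _ ≤ _).trans (hmark.trans hly)
  have h6 : (c * Real.exp (2 * θ' * x ^ β)) * μ.real {w | x < w.1} ≤ b.toReal := by
    have := ENNReal.toReal_mono hb h5
    rw [ENNReal.toReal_mul, ENNReal.toReal_ofReal (by positivity)] at this
    exact this
  have h7 : Real.exp (2 * θ' * x ^ β) * Real.exp (-(2 * θ' * x ^ β)) = 1 := by
    rw [← Real.exp_add]; simp
  have h8 := Real.exp_pos (-(2 * θ' * x ^ β))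
  calc μ.real {w | x < w.1}
      = (1 / c * Real.exp (-(2 * θ' * x ^ β))) *
        ((c * Real.exp (2 * θ' * x ^ β)) * μ.real {w | x < w.1}) := by
        have : (1 / c * Real.exp (-(2 * θ' * x ^ β))) *
        ((c * Real.exp (2 * θ' * x ^ β)) * μ.real {w | x < w.1})
          = (1 / c * c) * (Real.exp (2 * θ' * x ^ β) * Real.exp (-(2 * θ' * x ^ β))) *
            μ.real {w | x < w.1} := by ring
        rw [this, h7]; field_simp
    _ ≤ (1 / c * Real.exp (-(2 * θ' * x ^ β))) * b.toReal := by gcongr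
    _ = b.toReal / c * Real.exp (-(2 * θ' * x ^ β)) := by ring

section existence
open scoped ENNReal NNReal BoundedContinuousFunction

/-- law after one step -/
noncomputable def pushS (S : Measure ℝ) (t : ℝ) (μ : Measure (ℝ × ℝ)) : Measure (ℝ × ℝ) :=
  (μ.prod S).map (fun p => kwStep p.1 p.2 t)

variable {S : Measure ℝ} [IsProbabilityMeasure S] {t : ℝ}

theorem pushS_prob {μ : Measure (ℝ × ℝ)} [IsProbabilityMeasure μ] :
    IsProbabilityMeasure (pushS S t μ) :=
  Measure.isProbabilityMeasure_map (measurable_step t).aemeasurable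

theorem pushS_lintegral {μ : Measure (ℝ × ℝ)} {g : ℝ × ℝ → ℝ≥0∞} [SFinite μ] (hg : Measurable g) :
    ∫⁻ w, g w ∂(pushS S t μ) = ∫⁻ w, ∫⁻ s, g (kwStep w s t) ∂S ∂μ := by
  unfold pushS
  rw [lintegral_map hg (measurable_step t)]
  exact lintegral_prod (fun p : (ℝ × ℝ) × ℝ => g (kwStep p.1 p.2 t)) (hg.comp (measurable_step t)).aemeasurable

theorem kwStep_ord (w : ℝ × ℝ) (s t : ℝ) : 0 ≤ (kwStep w s t).1 ∧ (kwStep w s t).1 ≤ (kwStep w s t).2 := by
  unfold kwStep
  exact ⟨le_min (le_max_right _ _) (le_max_right _ _), min_le_max⟩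

theorem pushS_ord {μ : Measure (ℝ × ℝ)} : ∀ᵐ w ∂(pushS S t μ), 0 ≤ w.1 ∧ w.1 ≤ w.2 := by
  unfold pushS
  have hm : MeasurableSet {w : ℝ × ℝ | 0 ≤ w.1 ∧ w.1 ≤ w.2} :=
    (measurableSet_le measurable_const measurable_fst).inter (measurableSet_le measurable_fst measurable_snd)
  rw [ae_map_iff (measurable_step t).aemeasurable hm]
  exact Eventually.of_forall fun p => kwStep_ord p.1 p.2 t

/-- laws of the chain started from the empty system -/
noncomputable def lawN (S : Measure ℝ) (t : ℝ) : ℕ → Measure (ℝ × ℝ)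
  | 0 => Measure.dirac (0, 0)
  | k + 1 => pushS S t (lawN S t k)

theorem lawN_prob (k : ℕ) : IsProbabilityMeasure (lawN S t k) := by
  induction k with
  | zero => unfold lawN; infer_instance
  | succ k ih => have := ih; exact pushS_prob

theorem lawN_ord (k : ℕ) : ∀ᵐ w ∂(lawN S t k), 0 ≤ w.1 ∧ w.1 ≤ w.2 := by
  cases k with
  | zero => unfold lawN; rw [ae_dirac_eq, Filter.eventually_pure]; simp
  | succ k => exact pushS_ord

theorem lawN_sum {G f : ℝ × ℝ → ℝ≥0∞} {b : ℝ≥0∞} (hG : Measurable G) (hf : Measurable f)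
    (h : ∀ w : ℝ × ℝ, 0 ≤ w.1 → w.1 ≤ w.2 → (∫⁻ s, G (kwStep w s t) ∂S) + f w ≤ G w + b) (n : ℕ) :
    (∑ k ∈ Finset.range n, ∫⁻ w, f w ∂(lawN S t k)) + ∫⁻ w, G w ∂(lawN S t n) ≤ G (0, 0) + n * b := by
  induction n with
  | zero => simp [lawN]
  | succ n ih =>
    have hp := lawN_prob (S := S) (t := t) n
    have h1 : ∫⁻ w, f w ∂(lawN S t n) + ∫⁻ w, G w ∂(lawN S t (n + 1)) ≤ ∫⁻ w, G w ∂(lawN S t n) + b := by
      have e1 : ∫⁻ w, G w ∂(lawN S t (n + 1)) = ∫⁻ w, ∫⁻ s, G (kwStep w s t) ∂S ∂(lawN S t n) :=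
        pushS_lintegral hG
      rw [e1, ← lintegral_add_left hf]
      calc ∫⁻ w, (f w + ∫⁻ s, G (kwStep w s t) ∂S) ∂(lawN S t n)
          ≤ ∫⁻ w, (G w + b) ∂(lawN S t n) := by
            apply lintegral_mono_ae
            filter_upwards [lawN_ord (S := S) (t := t) n] with w hw
            rw [add_comm]; exact h w hw.1 hw.2
        _ = _ := by rw [lintegral_add_left hG]; simp
    rw [Finset.sum_range_succ]
    calc (∑ k ∈ Finset.range n, ∫⁻ w, f w ∂(lawN S t k)) + ∫⁻ w, f w ∂(lawN S t n)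
          + ∫⁻ w, G w ∂(lawN S t (n + 1))
        = (∑ k ∈ Finset.range n, ∫⁻ w, f w ∂(lawN S t k)) +
          (∫⁻ w, f w ∂(lawN S t n) + ∫⁻ w, G w ∂(lawN S t (n + 1))) := by rw [add_assoc]
      _ ≤ (∑ k ∈ Finset.range n, ∫⁻ w, f w ∂(lawN S t k)) + (∫⁻ w, G w ∂(lawN S t n) + b) := by gcongr
      _ = ((∑ k ∈ Finset.range n, ∫⁻ w, f w ∂(lawN S t k)) + ∫⁻ w, G w ∂(lawN S t n)) + b := by rw [add_assoc]
      _ ≤ (G (0, 0) + n * b) + b := by gcongr
      _ = G (0, 0) + ((n + 1 : ℕ) : ℝ≥0∞) * b := by push_cast; ring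

/-- Cesaro averages -/
noncomputable def ces (S : Measure ℝ) (t : ℝ) (n : ℕ) : Measure (ℝ × ℝ) :=
  ((n + 1 : ℕ) : ℝ≥0∞)⁻¹ • ∑ k ∈ Finset.range (n + 1), lawN S t k

theorem inv_mul_self (n : ℕ) : ((n + 1 : ℕ) : ℝ≥0∞)⁻¹ * ((n + 1 : ℕ) : ℝ≥0∞) = 1 :=
  ENNReal.inv_mul_cancel (by simp) (ENNReal.natCast_ne_top _)

theorem ces_prob (n : ℕ) : IsProbabilityMeasure (ces S t n) := by
  constructor
  unfold ces
  rw [Measure.smul_apply, Measure.finsetSum_apply]
  have : ∀ k ∈ Finset.range (n + 1), (lawN S t k) univ = 1 := by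
    intro k _
    have := lawN_prob (S := S) (t := t) k
    exact measure_univ
  rw [Finset.sum_congr rfl this]
  simp only [Finset.sum_const, Finset.card_range, nsmul_eq_mul, mul_one, smul_eq_mul]
  exact inv_mul_self n

theorem ces_f {G f : ℝ × ℝ → ℝ≥0∞} {b : ℝ≥0∞} (hG : Measurable G) (hf : Measurable f)
    (h : ∀ w : ℝ × ℝ, 0 ≤ w.1 → w.1 ≤ w.2 → (∫⁻ s, G (kwStep w s t) ∂S) + f w ≤ G w + b) (n : ℕ) :
    ∫⁻ w, f w ∂(ces S t n) ≤ G (0, 0) + b := by
  unfold ces
  rw [lintegral_smul_measure, lintegral_finsetSum_measure]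
  have h1 : (∑ k ∈ Finset.range (n + 1), ∫⁻ w, f w ∂(lawN S t k)) ≤ ((n + 1 : ℕ) : ℝ≥0∞) * (G (0, 0) + b) := by
    calc _ ≤ G (0, 0) + ((n + 1 : ℕ) : ℝ≥0∞) * b := le_trans (le_self_add) (lawN_sum hG hf h (n + 1))
      _ ≤ ((n + 1 : ℕ) : ℝ≥0∞) * G (0, 0) + ((n + 1 : ℕ) : ℝ≥0∞) * b := by
          gcongr
          calc G (0, 0) = 1 * G (0, 0) := (one_mul _).symm
            _ ≤ _ := by gcongr; simp
      _ = _ := by rw [mul_add]
  calc ((n + 1 : ℕ) : ℝ≥0∞)⁻¹ • (∑ k ∈ Finset.range (n + 1), ∫⁻ w, f w ∂(lawN S t k))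
      ≤ ((n + 1 : ℕ) : ℝ≥0∞)⁻¹ * (((n + 1 : ℕ) : ℝ≥0∞) * (G (0, 0) + b)) := by
        rw [smul_eq_mul]; gcongr
    _ = G (0, 0) + b := by rw [← mul_assoc, inv_mul_self, one_mul]

theorem ces_ord (n : ℕ) : ∀ᵐ w ∂(ces S t n), 0 ≤ w.1 ∧ w.1 ≤ w.2 := by
  unfold ces
  rw [ae_iff, Measure.smul_apply, Measure.finsetSum_apply]
  have : ∑ k ∈ Finset.range (n + 1), (lawN S t k) {w : ℝ × ℝ | ¬(0 ≤ w.1 ∧ w.1 ≤ w.2)} = 0 := by
    apply Finset.sum_eq_zero
    intro k _
    exact ae_iff.1 (lawN_ord k)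
  rw [this, smul_zero]

theorem pushS_ces (n : ℕ) :
    pushS S t (ces S t n) = ((n + 1 : ℕ) : ℝ≥0∞)⁻¹ • ∑ k ∈ Finset.range (n + 1), lawN S t (k + 1) := by
  have hc := ces_prob (S := S) (t := t) n
  ext E hE
  have hm : Measurable (E.indicator (1 : ℝ × ℝ → ℝ≥0∞)) := measurable_one.indicator hE
  have e0 : ∀ μ : Measure (ℝ × ℝ), μ E = ∫⁻ w, E.indicator 1 w ∂μ := fun μ => (lintegral_indicator_one hE).symm
  rw [e0, pushS_lintegral hm, Measure.smul_apply, Measure.finsetSum_apply]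
  unfold ces
  rw [lintegral_smul_measure, lintegral_finsetSum_measure]
  congr 1
  apply Finset.sum_congr rfl
  intro k _
  have hp := lawN_prob (S := S) (t := t) k
  rw [e0 (lawN S t (k + 1))]
  exact (pushS_lintegral hm).symm

theorem int_avg (μ : ℕ → Measure (ℝ × ℝ)) (hμ : ∀ k, IsProbabilityMeasure (μ k)) (n : ℕ)
    (g : (ℝ × ℝ) →ᵇ ℝ) :
    ∫ w, g w ∂(((n + 1 : ℕ) : ℝ≥0∞)⁻¹ • ∑ k ∈ Finset.range (n + 1), μ k) =
      ((n + 1 : ℕ) : ℝ)⁻¹ * ∑ k ∈ Finset.range (n + 1), ∫ w, g w ∂(μ k) := by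
  rw [integral_smul_measure, integral_finsetSum_measure]
  · rw [ENNReal.toReal_inv, ENNReal.toReal_natCast, smul_eq_mul]
  · intro k _
    have := hμ k
    exact g.integrable _

theorem exists_stationary {G f : ℝ × ℝ → ℝ≥0∞} {b : ℝ≥0∞} {c : ℝ} (hG : Measurable G)
    (hf : Measurable f) (hGfin : ∀ w, G w ≠ ⊤) (hb : b ≠ ⊤) (hc : 0 < c)
    (h : ∀ w : ℝ × ℝ, 0 ≤ w.1 → w.1 ≤ w.2 → (∫⁻ s, G (kwStep w s t) ∂S) + f w ≤ G w + b)
    (hlow : ∀ w : ℝ × ℝ, 0 ≤ w.1 → w.1 ≤ w.2 → ENNReal.ofReal (c * w.2) ≤ f w) :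
    ∃ μ : Measure (ℝ × ℝ), IsProbabilityMeasure μ ∧ (∀ᵐ w ∂μ, 0 ≤ w.1 ∧ w.1 ≤ w.2) ∧
      pushS S t μ = μ := by
  set K : ℕ → Set (ℝ × ℝ) := fun m => Icc (0, 0) ((m : ℝ) + 1, (m : ℝ) + 1) with hK
  set D : ℝ≥0∞ := G (0, 0) + b with hD
  have hDfin : D ≠ ⊤ := ENNReal.add_ne_top.2 ⟨hGfin _, hb⟩
  set u : ℕ → ℝ≥0 := fun m => Real.toNNReal (D.toReal / (c * ((m : ℝ) + 1))) with hu
  have hut : Tendsto u atTop (𝓝 0) := by
    rw [hu]
    have h1 : Tendsto (fun m : ℕ => ((m : ℝ) + 1)) atTop atTop :=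
      tendsto_atTop_add_const_right _ _ tendsto_natCast_atTop_atTop
    have h2 : Tendsto (fun m : ℕ => c * ((m : ℝ) + 1)) atTop atTop :=
      h1.const_mul_atTop hc
    have h3 : Tendsto (fun m : ℕ => D.toReal / (c * ((m : ℝ) + 1))) atTop (𝓝 0) := h2.const_div_atTop _
    have h4 := (continuous_real_toNNReal.tendsto 0).comp h3
    simpa [Function.comp_def] using h4
  have hKc : ∀ m, IsCompact (K m) := fun m => isCompact_Icc
  have hbound : ∀ n m, (ces S t n) (K m)ᶜ ≤ u m := by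
    intro n m
    have hsub : (ces S t n) (K m)ᶜ ≤ (ces S t n) {w | ENNReal.ofReal (c * ((m : ℝ) + 1)) ≤ f w} := by
      apply measure_mono_ae
      filter_upwards [ces_ord (S := S) (t := t) n] with w hw hmem
      refine le_trans (ENNReal.ofReal_le_ofReal ?_) (hlow w hw.1 hw.2)
      by_contra hcon
      push Not at hcon
      have hw2 : w.2 < (m : ℝ) + 1 := lt_of_mul_lt_mul_left hcon hc.le
      apply hmem
      show w ∈ Icc ((0 : ℝ), (0 : ℝ)) ((m : ℝ) + 1, (m : ℝ) + 1)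
      exact ⟨⟨hw.1, hw.1.trans hw.2⟩, ⟨(hw.2.trans hw2.le), hw2.le⟩⟩
    have hmark := mul_meas_ge_le_lintegral hf (ENNReal.ofReal (c * ((m : ℝ) + 1))) (μ := ces S t n)
    have h3 : ENNReal.ofReal (c * ((m : ℝ) + 1)) * (ces S t n) (K m)ᶜ ≤ D :=
      (by gcongr : _ ≤ _).trans (hmark.trans (ces_f hG hf h n))
    have hcm : 0 < c * ((m : ℝ) + 1) := by positivity
    show (ces S t n) (K m)ᶜ ≤ ENNReal.ofReal (D.toReal / (c * ((m : ℝ) + 1)))
    rw [ENNReal.ofReal_div_of_pos hcm, ENNReal.ofReal_toReal hDfin,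
      ENNReal.le_div_iff_mul_le (Or.inl (ENNReal.ofReal_pos.2 hcm).ne') (Or.inl ENNReal.ofReal_ne_top), mul_comm]
    exact h3
  have hcomp := isCompact_setOfPred_probabilityMeasure_mass_eq_compl_isCompact_le (E := ℝ × ℝ) hut hKc
    (Or.inl inferInstance)
  set νn : ℕ → ProbabilityMeasure (ℝ × ℝ) := fun n => ⟨ces S t n, ces_prob n⟩ with hνn
  obtain ⟨ν, hνmem, hνlim⟩ := hcomp.ultrafilter_le_nhds ((hyperfilter ℕ).map νn) (by
    rw [le_principal_iff]
    apply Filter.mem_map.2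
    apply Filter.univ_mem'
    intro n m
    have := hbound n m
    show (νn n) (K m)ᶜ ≤ u m
    rw [← ENNReal.coe_le_coe, ProbabilityMeasure.ennreal_coeFn_eq_coeFn_toMeasure]
    exact this)
  have hlim : Tendsto νn (hyperfilter ℕ : Filter ℕ) (𝓝 ν) := hνlim
  set S' : ProbabilityMeasure ℝ := ⟨S, inferInstance⟩ with hS'
  have hcont : Continuous (fun p : (ℝ × ℝ) × ℝ => kwStep p.1 p.2 t) := by
    unfold kwStep; fun_prop
  have hΘ : Continuous (fun μ : ProbabilityMeasure (ℝ × ℝ) =>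
      (μ.prod S').map (f := fun p : (ℝ × ℝ) × ℝ => kwStep p.1 p.2 t) (measurable_step t).aemeasurable) := by
    have h1 : Continuous (fun μ : ProbabilityMeasure (ℝ × ℝ) => μ.prod S') :=
      ProbabilityMeasure.continuous_prod.comp (continuous_id.prodMk continuous_const)
    exact (ProbabilityMeasure.continuous_map hcont).comp h1
  have hlim2 := (hΘ.tendsto ν).comp hlim
  have hνprob : IsProbabilityMeasure (ν : Measure (ℝ × ℝ)) := inferInstance
  have hpν : IsProbabilityMeasure (pushS S t (ν : Measure (ℝ × ℝ))) := pushS_prob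
  have hfix : pushS S t (ν : Measure (ℝ × ℝ)) = (ν : Measure (ℝ × ℝ)) := by
    apply ext_of_forall_integral_eq_of_IsFiniteMeasure
    intro g
    have l1 := (ProbabilityMeasure.tendsto_iff_forall_integral_tendsto.1 hlim) g
    have l2 := (ProbabilityMeasure.tendsto_iff_forall_integral_tendsto.1 hlim2) g
    have l3 : Tendsto (fun n => (∫ w, g w ∂(pushS S t (ces S t n))) - ∫ w, g w ∂(ces S t n))
        (hyperfilter ℕ : Filter ℕ) (𝓝 0) := by
      have hz : Tendsto (fun n : ℕ => ((n + 1 : ℕ) : ℝ)⁻¹ * (2 * ‖g‖)) atTop (𝓝 0) := by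
        have h1 : Tendsto (fun n : ℕ => ((n + 1 : ℕ) : ℝ)⁻¹) atTop (𝓝 0) := by
          have := tendsto_one_div_add_atTop_nhds_zero_nat (𝕜 := ℝ)
          refine this.congr ?_
          intro n; push_cast; simp
        simpa using h1.mul_const (2 * ‖g‖)
      apply (squeeze_zero_norm _ hz).mono_left Nat.hyperfilter_le_atTop
      intro n
      rw [pushS_ces]
      unfold ces
      rw [int_avg _ (fun k => lawN_prob (k + 1)), int_avg _ (fun k => lawN_prob k), ← mul_sub,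
        ← Finset.sum_sub_distrib]
      have hts : ∑ k ∈ Finset.range (n + 1), ((∫ w, g w ∂(lawN S t (k + 1))) - ∫ w, g w ∂(lawN S t k))
          = (∫ w, g w ∂(lawN S t (n + 1))) - ∫ w, g w ∂(lawN S t 0) :=
        Finset.sum_range_sub (fun k => ∫ w, g w ∂(lawN S t k)) (n + 1)
      rw [hts, norm_mul, Real.norm_of_nonneg (by positivity : (0:ℝ) ≤ ((n + 1 : ℕ) : ℝ)⁻¹)]
      gcongr
      have b1 : ∀ k, ‖∫ w, g w ∂(lawN S t k)‖ ≤ ‖g‖ := by
        intro k
        have := lawN_prob (S := S) (t := t) k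
        exact g.norm_integral_le_norm _
      calc ‖(∫ w, g w ∂(lawN S t (n + 1))) - ∫ w, g w ∂(lawN S t 0)‖
          ≤ ‖∫ w, g w ∂(lawN S t (n + 1))‖ + ‖∫ w, g w ∂(lawN S t 0)‖ := norm_sub_le _ _
        _ ≤ ‖g‖ + ‖g‖ := add_le_add (b1 _) (b1 _)
        _ = 2 * ‖g‖ := by ring
    have l4 : Tendsto (fun n => (∫ w, g w ∂(pushS S t (ces S t n))) - ∫ w, g w ∂(ces S t n))
        (hyperfilter ℕ : Filter ℕ)
        (𝓝 ((∫ w, g w ∂(pushS S t (ν : Measure (ℝ × ℝ)))) - ∫ w, g w ∂(ν : Measure (ℝ × ℝ)))) :=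
      l2.sub l1
    have := tendsto_nhds_unique l4 l3
    linarith
  refine ⟨ν, hνprob, ?_, hfix⟩
  rw [← hfix]
  exact pushS_ord

end existence

theorem prod_union {S : Measure ℝ} [IsProbabilityMeasure S] {μ : Measure (ℝ × ℝ)}
    [IsProbabilityMeasure μ] {E F : Set (ℝ × ℝ)} {J : Set ℝ} (hF : MeasurableSet F)
    (hJ : MeasurableSet J) (hEF : Disjoint E F) :
    (μ.prod S).real (E ×ˢ univ ∪ F ×ˢ J) = μ.real E + μ.real F * S.real J := by
  rw [measureReal_union _ (hF.prod hJ)]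
  · rw [measureReal_prod_prod, measureReal_prod_prod]; simp
  · exact Set.disjoint_prod.2 (Or.inl hEF)

section low
variable {S : Measure ℝ} [IsProbabilityMeasure S] {μ : Measure (ℝ × ℝ)} [IsProbabilityMeasure μ]
    {t : ℝ}

theorem step_b (hS0 : ∀ᵐ s ∂S, 0 ≤ s) (hord : ∀ᵐ w ∂μ, 0 ≤ w.1 ∧ w.1 ≤ w.2)
    (hinv : (μ.prod S).map (fun p => kwStep p.1 p.2 t) = μ) {y : ℝ} (hy : 0 ≤ y) :
    μ.real {w | y + t < w.2} + (1 - μ.real {w | y + t < w.2}) * S.real (Ioi (y + t)) ≤
      μ.real {w | y < w.2} := by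
  have hE : MeasurableSet {w : ℝ × ℝ | y + t < w.2} := measurableSet_lt measurable_const measurable_snd
  have hE' : MeasurableSet {w : ℝ × ℝ | y < w.2} := measurableSet_lt measurable_const measurable_snd
  have h1 : (μ.prod S).real ({w : ℝ × ℝ | y + t < w.2} ×ˢ univ ∪ {w : ℝ × ℝ | y + t < w.2}ᶜ ×ˢ Ioi (y + t))
      = μ.real {w | y + t < w.2} + (1 - μ.real {w | y + t < w.2}) * S.real (Ioi (y + t)) := by
    rw [prod_union hE.compl measurableSet_Ioi disjoint_compl_right, probReal_compl_eq_one_sub hE]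
  rw [← h1]
  have h2 : μ.real {w | y < w.2} = (μ.prod S).real ((fun p : (ℝ × ℝ) × ℝ => kwStep p.1 p.2 t) ⁻¹' {w | y < w.2}) := by
    conv_lhs => rw [← hinv]
    rw [map_measureReal_apply (measurable_step t) hE']
  rw [h2]
  have a1 : ∀ᵐ p ∂(μ.prod S), 0 ≤ p.1.1 ∧ p.1.1 ≤ p.1.2 := Measure.quasiMeasurePreserving_fst.ae hord
  apply ENNReal.toReal_mono (measure_ne_top _ _)
  apply measure_mono_ae
  filter_upwards [a1] with p hp hmem
  rcases hmem with hm | hm
  · have : y + t < p.1.2 := hm.1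
    show y < max _ _
    exact lt_max_of_lt_right (lt_max_of_lt_left (by linarith))
  · have : y + t < p.2 := hm.2
    show y < max _ _
    exact lt_max_of_lt_left (lt_max_of_lt_left (by linarith [hp.1]))

theorem step_a (hS0 : ∀ᵐ s ∂S, 0 ≤ s) (hord : ∀ᵐ w ∂μ, 0 ≤ w.1 ∧ w.1 ≤ w.2)
    (hinv : (μ.prod S).map (fun p => kwStep p.1 p.2 t) = μ) {y : ℝ} (hy : 0 ≤ y) :
    μ.real {w | y + t < w.1} + (μ.real {w | y + t < w.2} - μ.real {w | y + t < w.1}) * S.real (Ioi (y + t)) ≤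
      μ.real {w | y < w.1} := by
  have hE : MeasurableSet {w : ℝ × ℝ | y + t < w.1} := measurableSet_lt measurable_const measurable_fst
  have hF : MeasurableSet {w : ℝ × ℝ | y + t < w.2} := measurableSet_lt measurable_const measurable_snd
  have hE' : MeasurableSet {w : ℝ × ℝ | y < w.1} := measurableSet_lt measurable_const measurable_fst
  have h0 : μ.real ({w : ℝ × ℝ | y + t < w.2} \ {w : ℝ × ℝ | y + t < w.1})
      = μ.real {w | y + t < w.2} - μ.real {w | y + t < w.1} := by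
    have h3 : μ.real ({w : ℝ × ℝ | y + t < w.2} ∩ {w : ℝ × ℝ | y + t < w.1}) = μ.real {w | y + t < w.1} := by
      apply measureReal_congr
      filter_upwards [hord] with w hw
      apply propext
      show (y + t < w.2 ∧ y + t < w.1) ↔ (y + t < w.1)
      exact ⟨fun h => h.2, fun h => ⟨h.trans_le hw.2, h⟩⟩
    have h4 := measureReal_inter_add_sdiff (μ := μ) (s := {w : ℝ × ℝ | y + t < w.2}) hE
    linarith
  have h1 : (μ.prod S).real ({w : ℝ × ℝ | y + t < w.1} ×ˢ univ ∪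
      ({w : ℝ × ℝ | y + t < w.2} \ {w : ℝ × ℝ | y + t < w.1}) ×ˢ Ioi (y + t))
      = μ.real {w | y + t < w.1} + (μ.real {w | y + t < w.2} - μ.real {w | y + t < w.1}) * S.real (Ioi (y + t)) := by
    rw [prod_union (hF.diff hE) measurableSet_Ioi disjoint_sdiff_self_right, h0]
  rw [← h1]
  have h2 : μ.real {w | y < w.1} = (μ.prod S).real ((fun p : (ℝ × ℝ) × ℝ => kwStep p.1 p.2 t) ⁻¹' {w | y < w.1}) := by
    conv_lhs => rw [← hinv]
    rw [map_measureReal_apply (measurable_step t) hE']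
  rw [h2]
  have a1 : ∀ᵐ p ∂(μ.prod S), 0 ≤ p.1.1 ∧ p.1.1 ≤ p.1.2 := Measure.quasiMeasurePreserving_fst.ae hord
  have a2 : ∀ᵐ p ∂(μ.prod S), 0 ≤ p.2 := Measure.quasiMeasurePreserving_snd.ae hS0
  apply ENNReal.toReal_mono (measure_ne_top _ _)
  apply measure_mono_ae
  filter_upwards [a1, a2] with p hp hp2 hmem
  rcases hmem with hm | hm
  · have : y + t < p.1.1 := hm.1
    show y < min _ _
    exact lt_min (lt_max_of_lt_left (by linarith)) (lt_max_of_lt_left (by linarith [hp.2]))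
  · have h5 : y + t < p.2 := hm.2
    have h6 : y + t < p.1.2 := hm.1.1
    show y < min _ _
    exact lt_min (lt_max_of_lt_left (by linarith [hp.1])) (lt_max_of_lt_left (by linarith))

theorem anti_a {x y : ℝ} (h : x ≤ y) : μ.real {w | y < w.1} ≤ μ.real {w | x < w.1} :=
  measureReal_mono (fun _ hw => lt_of_le_of_lt h hw)

theorem anti_b {x y : ℝ} (h : x ≤ y) : μ.real {w | y < w.2} ≤ μ.real {w | x < w.2} :=
  measureReal_mono (fun _ hw => lt_of_le_of_lt h hw)

theorem a_le_b (hord : ∀ᵐ w ∂μ, 0 ≤ w.1 ∧ w.1 ≤ w.2) (y : ℝ) :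
    μ.real {w | y < w.1} ≤ μ.real {w | y < w.2} := by
  apply ENNReal.toReal_mono (measure_ne_top _ _)
  apply measure_mono_ae
  filter_upwards [hord] with w hw h
  exact lt_of_lt_of_le h hw.2

theorem anti_q {x y : ℝ} (h : x ≤ y) : S.real (Ioi y) ≤ S.real (Ioi x) :=
  measureReal_mono (Ioi_subset_Ioi h)

theorem iter_b (hS0 : ∀ᵐ s ∂S, 0 ≤ s) (hord : ∀ᵐ w ∂μ, 0 ≤ w.1 ∧ w.1 ≤ w.2) (ht : 0 ≤ t)
    (hinv : (μ.prod S).map (fun p => kwStep p.1 p.2 t) = μ) {y : ℝ} (hy : 0 ≤ y) (N : ℕ) :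
    (N : ℝ) * (1 - μ.real {w | y < w.2}) * S.real (Ioi (y + N * t)) ≤ μ.real {w | y < w.2} := by
  have key : ∀ k : ℕ, k ≤ N → μ.real {w | y + k * t < w.2} +
      (k : ℝ) * (1 - μ.real {w | y < w.2}) * S.real (Ioi (y + N * t)) ≤ μ.real {w | y < w.2} := by
    intro k
    induction k with
    | zero => intro _; simp
    | succ k ih =>
      intro hk
      have h1 := ih (by omega)
      have hyk : 0 ≤ y + k * t := by positivity
      have h2 := step_b hS0 hord hinv hyk
      have e : y + (k : ℝ) * t + t = y + ((k + 1 : ℕ) : ℝ) * t := by push_cast; ring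
      rw [e] at h2
      have h3 : μ.real {w | y + ((k + 1 : ℕ) : ℝ) * t < w.2} ≤ μ.real {w | y < w.2} :=
        anti_b (by have : 0 ≤ ((k + 1 : ℕ) : ℝ) * t := by positivity
                   linarith)
      have h4 : S.real (Ioi (y + N * t)) ≤ S.real (Ioi (y + ((k + 1 : ℕ) : ℝ) * t)) := by
        apply anti_q
        have : ((k + 1 : ℕ) : ℝ) ≤ N := by exact_mod_cast hk
        nlinarith
      have h5 : 0 ≤ S.real (Ioi (y + N * t)) := measureReal_nonneg
      have h6 : μ.real {w | y < w.2} ≤ 1 := measureReal_le_one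
      have h7 : (1 - μ.real {w | y < w.2}) * S.real (Ioi (y + N * t)) ≤
        (1 - μ.real {w | y + ((k + 1 : ℕ) : ℝ) * t < w.2}) * S.real (Ioi (y + ((k + 1 : ℕ) : ℝ) * t)) := by
        apply mul_le_mul (by linarith) h4 h5 (by linarith)
      have e2 : ((k + 1 : ℕ) : ℝ) * (1 - μ.real {w | y < w.2}) * S.real (Ioi (y + N * t))
        = (k : ℝ) * (1 - μ.real {w | y < w.2}) * S.real (Ioi (y + N * t)) +
          (1 - μ.real {w | y < w.2}) * S.real (Ioi (y + N * t)) := by push_cast; ring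
      rw [e2]; linarith
  have := key N le_rfl
  have h0 : 0 ≤ μ.real {w | y + N * t < w.2} := measureReal_nonneg
  linarith

theorem iter_a (hS0 : ∀ᵐ s ∂S, 0 ≤ s) (hord : ∀ᵐ w ∂μ, 0 ≤ w.1 ∧ w.1 ≤ w.2) (ht : 0 ≤ t)
    (hinv : (μ.prod S).map (fun p => kwStep p.1 p.2 t) = μ) {y : ℝ} (hy : 0 ≤ y) (N : ℕ) :
    (N : ℝ) * (μ.real {w | y + N * t < w.2} - μ.real {w | y < w.1}) * S.real (Ioi (y + N * t))
      ≤ μ.real {w | y < w.1} := by
  have key : ∀ k : ℕ, k ≤ N → μ.real {w | y + k * t < w.1} +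
      (k : ℝ) * (μ.real {w | y + N * t < w.2} - μ.real {w | y < w.1}) * S.real (Ioi (y + N * t))
        ≤ μ.real {w | y < w.1} := by
    intro k
    induction k with
    | zero => intro _; simp
    | succ k ih =>
      intro hk
      have h1 := ih (by omega)
      have hyk : 0 ≤ y + k * t := by positivity
      have h2 := step_a hS0 hord hinv hyk
      have e : y + (k : ℝ) * t + t = y + ((k + 1 : ℕ) : ℝ) * t := by push_cast; ring
      rw [e] at h2
      have hkN : ((k + 1 : ℕ) : ℝ) * t ≤ N * t := by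
        have : ((k + 1 : ℕ) : ℝ) ≤ N := by exact_mod_cast hk
        nlinarith
      have h3 : μ.real {w | y + ((k + 1 : ℕ) : ℝ) * t < w.1} ≤ μ.real {w | y < w.1} :=
        anti_a (by have : 0 ≤ ((k + 1 : ℕ) : ℝ) * t := by positivity
                   linarith)
      have h3' : μ.real {w | y + N * t < w.2} ≤ μ.real {w | y + ((k + 1 : ℕ) : ℝ) * t < w.2} :=
        anti_b (by linarith)
      have h4 : S.real (Ioi (y + N * t)) ≤ S.real (Ioi (y + ((k + 1 : ℕ) : ℝ) * t)) := by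
        apply anti_q; linarith
      have h5 : 0 ≤ S.real (Ioi (y + N * t)) := measureReal_nonneg
      have h6 := a_le_b hord (y + ((k + 1 : ℕ) : ℝ) * t)
      have h7 : (μ.real {w | y + N * t < w.2} - μ.real {w | y < w.1}) * S.real (Ioi (y + N * t)) ≤
        (μ.real {w | y + ((k + 1 : ℕ) : ℝ) * t < w.2} - μ.real {w | y + ((k + 1 : ℕ) : ℝ) * t < w.1}) *
          S.real (Ioi (y + ((k + 1 : ℕ) : ℝ) * t)) := by
        apply mul_le_mul (by linarith) h4 h5 (by linarith)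
      have e2 : ((k + 1 : ℕ) : ℝ) * (μ.real {w | y + N * t < w.2} - μ.real {w | y < w.1}) * S.real (Ioi (y + N * t))
        = (k : ℝ) * (μ.real {w | y + N * t < w.2} - μ.real {w | y < w.1}) * S.real (Ioi (y + N * t)) +
          (μ.real {w | y + N * t < w.2} - μ.real {w | y < w.1}) * S.real (Ioi (y + N * t)) := by push_cast; ring
      rw [e2]; linarith
  have := key N le_rfl
  have h0 : 0 ≤ μ.real {w | y + N * t < w.1} := measureReal_nonneg
  linarith

theorem b_small : ∃ Y : ℝ, ∀ y, Y ≤ y → μ.real {w | y < w.2} ≤ 1 / 2 := by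
  have h := tendsto_measure_Iic_atTop (μ.map Prod.snd)
  have : IsProbabilityMeasure (μ.map Prod.snd) := Measure.isProbabilityMeasure_map measurable_snd.aemeasurable
  rw [measure_univ] at h
  have h2 : ∀ᶠ y in atTop, (1 / 2 : ENNReal) < (μ.map Prod.snd) (Iic y) := by
    apply h.eventually (lt_mem_nhds _)
    exact ENNReal.half_lt_self one_ne_zero ENNReal.one_ne_top
  obtain ⟨Y, hY⟩ := eventually_atTop.1 h2
  refine ⟨Y, fun y hy => ?_⟩
  have h3 := hY y hy
  rw [Measure.map_apply measurable_snd measurableSet_Iic] at h3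
  have hE : MeasurableSet {w : ℝ × ℝ | y < w.2} := measurableSet_lt measurable_const measurable_snd
  have h4 : (Prod.snd ⁻¹' (Iic y) : Set (ℝ × ℝ)) = {w : ℝ × ℝ | y < w.2}ᶜ := by
    ext w; simp
  rw [h4] at h3
  have h5 : (1 / 2 : ℝ) < μ.real {w : ℝ × ℝ | y < w.2}ᶜ := by
    have := (ENNReal.toReal_lt_toReal (by simp) (measure_ne_top _ _)).2 h3
    simpa [Measure.real] using this
  rw [probReal_compl_eq_one_sub hE] at h5
  linarith

/-- lower bound for the smaller workload: two long jobs -/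
theorem lower {β : ℝ} (hS0 : ∀ᵐ s ∂S, 0 ≤ s) (h0 : 0 < β) (h1 : β < 1)
    (htail : ∀ y : ℝ, 0 ≤ y → S.real (Ioi y) = Real.exp (-y ^ β))
    (hord : ∀ᵐ w ∂μ, 0 ≤ w.1 ∧ w.1 ≤ w.2) (ht : 0 ≤ t)
    (hinv : (μ.prod S).map (fun p => kwStep p.1 p.2 t) = μ) :
    ∃ c Y : ℝ, 0 < c ∧ ∀ y : ℝ, Y ≤ y →
      c * y ^ (2 - 2 * β) * Real.exp (-(2 * y ^ β)) ≤ μ.real {w | y < w.1} := by
  obtain ⟨Y0, hY0⟩ := b_small (μ := μ)
  obtain ⟨C, hC, hCs⟩ := sq_le_exp h0 (show (0:ℝ) < 1 by norm_num)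
  refine ⟨Real.exp (-(4 * t)) / (8 * (1 + C)), max Y0 1, by positivity, fun y hy => ?_⟩
  have hy1 : 1 ≤ y := (le_max_right _ _).trans hy
  have hyY : Y0 ≤ y := (le_max_left _ _).trans hy
  have hypos : 0 < y := by linarith
  set z := y ^ (1 - β) with hz
  have hz1 : 1 ≤ z := Real.one_le_rpow hy1 (by linarith)
  set N := ⌊z⌋₊ with hN
  have hNle : (N : ℝ) ≤ z := Nat.floor_le (by linarith)
  have hN1 : 1 ≤ N := Nat.le_floor (by simpa using hz1)
  have hN1' : (1 : ℝ) ≤ N := by exact_mod_cast hN1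
  have hNge : z / 2 ≤ N := by
    have := Nat.lt_floor_add_one z
    rw [← hN] at this; linarith
  have hN0 : (0:ℝ) ≤ N := by linarith
  have hyN : 0 ≤ y + N * t := by positivity
  set q2 := S.real (Ioi (y + 2 * N * t)) with hq2
  have hq20 : 0 ≤ q2 := measureReal_nonneg
  have hq1 : q2 ≤ S.real (Ioi (y + N * t)) := by
    apply anti_q; nlinarith [mul_nonneg hN0 ht]
  have hb : (N : ℝ) / 2 * q2 ≤ μ.real {w | y + N * t < w.2} := by
    have h := iter_b hS0 hord ht hinv hyN N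
    have e : y + N * t + N * t = y + 2 * N * t := by ring
    rw [e, ← hq2] at h
    have h2 := hY0 (y + N * t) (by nlinarith [mul_nonneg hN0 ht])
    have h3 : (N : ℝ) / 2 * q2 ≤ (N : ℝ) * (1 - μ.real {w | y + N * t < w.2}) * q2 := by
      apply mul_le_mul_of_nonneg_right _ hq20
      nlinarith
    linarith
  have ha := iter_a hS0 hord ht hinv hypos.le N
  set a := μ.real {w | y < w.1} with hadef
  have ha0 : 0 ≤ a := measureReal_nonneg
  set q1 := S.real (Ioi (y + N * t)) with hq1def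
  have hq10 : 0 ≤ q1 := measureReal_nonneg
  have hNq : (N : ℝ) * q1 ≤ C := by
    have e1 : q1 ≤ Real.exp (-y ^ β) := by
      rw [← htail y hypos.le]; apply anti_q; nlinarith [mul_nonneg hN0 ht]
    have e2 : (N : ℝ) ≤ C * Real.exp (1 * y ^ β) := by
      have h3 := hCs y hypos.le
      have h4 : z ≤ y := by
        rw [hz]
        calc y ^ (1 - β) ≤ y ^ (1:ℝ) := Real.rpow_le_rpow_of_exponent_le hy1 (by linarith)
          _ = y := Real.rpow_one y
      nlinarith
    have e3 : Real.exp (1 * y ^ β) * Real.exp (-y ^ β) = 1 := by rw [← Real.exp_add]; simp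
    calc (N : ℝ) * q1 ≤ (C * Real.exp (1 * y ^ β)) * Real.exp (-y ^ β) := by gcongr
      _ = C := by rw [mul_assoc, e3, mul_one]
  have hmain : (N : ℝ) ^ 2 / 2 * q2 ^ 2 ≤ a * (1 + C) := by
    have h2 : (N : ℝ) * (μ.real {w | y + N * t < w.2}) * q1 ≤ a * (1 + N * q1) := by
      nlinarith
    have h3 : (N : ℝ) ^ 2 / 2 * q2 ^ 2 ≤ (N : ℝ) * (μ.real {w | y + N * t < w.2}) * q1 := by
      calc (N : ℝ) ^ 2 / 2 * q2 ^ 2 = N * (N / 2 * q2) * q2 := by ring
        _ ≤ (N : ℝ) * (μ.real {w | y + N * t < w.2}) * q1 := by gcongr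
    have h4 : a * (1 + N * q1) ≤ a * (1 + C) := by gcongr
    linarith
  have hq2ge : Real.exp (-y ^ β - 2 * t) ≤ q2 := by
    rw [hq2, htail _ (by positivity)]
    apply Real.exp_le_exp.2
    have e1 : y + 2 * N * t = y * (1 + 2 * N * t / y) := by field_simp
    have hpos2 : 0 ≤ 2 * N * t / y := by positivity
    have e2 : (y + 2 * N * t) ^ β ≤ y ^ β * (1 + β * (2 * N * t / y)) := by
      rw [e1, Real.mul_rpow hypos.le (by linarith)]
      gcongr
      exact rpow_one_add_le_one_add_mul_self (by linarith) h0.le h1.le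
    have e3 : y ^ β * (β * (2 * N * t / y)) ≤ 2 * t := by
      have h5 : y ^ β * z = y := by
        rw [hz, ← Real.rpow_add hypos]; simp
      have h6 : y ^ β * (N : ℝ) ≤ y := by
        calc y ^ β * (N : ℝ) ≤ y ^ β * z := by gcongr
          _ = y := h5
      have h7 : y ^ β * (β * (2 * N * t / y)) = β * (2 * t) * (y ^ β * N / y) := by ring
      rw [h7]
      have h8 : y ^ β * N / y ≤ 1 := by rw [div_le_one hypos]; exact h6
      have h9 : 0 ≤ y ^ β * N / y := by positivity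
      calc β * (2 * t) * (y ^ β * N / y) ≤ 1 * (2 * t) * 1 := by gcongr
        _ = 2 * t := by ring
    nlinarith
  have hq2sq : Real.exp (-(4 * t)) * Real.exp (-(2 * y ^ β)) ≤ q2 ^ 2 := by
    have : Real.exp (-(4 * t)) * Real.exp (-(2 * y ^ β)) = (Real.exp (-y ^ β - 2 * t)) ^ 2 := by
      rw [← Real.exp_add, ← Real.exp_nat_mul]; congr 1; push_cast; ring
    rw [this]
    gcongr
  have hz2 : y ^ (2 - 2 * β) = z ^ 2 := by
    rw [hz, ← Real.rpow_natCast, ← Real.rpow_mul hypos.le]; congr 1; push_cast; ring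
  have hNsq : z ^ 2 / 4 ≤ (N : ℝ) ^ 2 := by nlinarith
  have hfin : z ^ 2 / 8 * (Real.exp (-(4 * t)) * Real.exp (-(2 * y ^ β))) ≤ a * (1 + C) := by
    calc z ^ 2 / 8 * (Real.exp (-(4 * t)) * Real.exp (-(2 * y ^ β)))
        = (z ^ 2 / 4) / 2 * (Real.exp (-(4 * t)) * Real.exp (-(2 * y ^ β))) := by ring
      _ ≤ (N : ℝ) ^ 2 / 2 * q2 ^ 2 := by gcongr
      _ ≤ _ := hmain
  rw [hz2]
  have h1C : 0 < 1 + C := by linarith
  calc Real.exp (-(4 * t)) / (8 * (1 + C)) * z ^ 2 * Real.exp (-(2 * y ^ β))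
      = (z ^ 2 / 8 * (Real.exp (-(4 * t)) * Real.exp (-(2 * y ^ β)))) / (1 + C) := by
        field_simp
    _ ≤ (a * (1 + C)) / (1 + C) := by gcongr
    _ = a := by field_simp

end low

/-- standard exponential law -/
noncomputable def expLaw : Measure ℝ :=
  (volume.restrict (Ioi (0:ℝ))).withDensity (fun x => ENNReal.ofReal (Real.exp (-x)))

/-- law with tail exp(-x^β) -/
noncomputable def weib (β : ℝ) : Measure ℝ := expLaw.map (fun x => x ^ (1 / β))

theorem expLaw_Ioi {y : ℝ} (hy : 0 ≤ y) : expLaw (Ioi y) = ENNReal.ofReal (Real.exp (-y)) := by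
  unfold expLaw
  rw [withDensity_apply _ measurableSet_Ioi, Measure.restrict_restrict measurableSet_Ioi,
    Ioi_inter_Ioi, max_eq_left hy, ← ofReal_integral_eq_lintegral_ofReal (integrableOn_exp_neg_Ioi y)
    (Eventually.of_forall fun x => (Real.exp_pos _).le), integral_exp_neg_Ioi]

theorem expLaw_compl : expLaw (Iic 0) = 0 := by
  unfold expLaw
  rw [withDensity_apply _ measurableSet_Iic, Measure.restrict_restrict measurableSet_Iic,
    Iic_inter_Ioi, Ioc_self]
  simp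

instance : IsProbabilityMeasure expLaw := by
  constructor
  have h : (univ : Set ℝ) = Iic 0 ∪ Ioi 0 := Iic_union_Ioi.symm
  apply le_antisymm
  · rw [h]
    refine (measure_union_le _ _).trans ?_
    rw [expLaw_compl, expLaw_Ioi le_rfl]; simp
  · calc (1:ENNReal) = expLaw (Ioi 0) := by rw [expLaw_Ioi le_rfl]; simp
      _ ≤ _ := measure_mono (subset_univ _)

theorem meas_pow (β : ℝ) : Measurable (fun x : ℝ => x ^ (1 / β)) := by fun_prop

instance (β : ℝ) : IsProbabilityMeasure (weib β) :=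
  Measure.isProbabilityMeasure_map (meas_pow β).aemeasurable

theorem expLaw_pos : ∀ᵐ x ∂expLaw, 0 < x := by
  rw [ae_iff]
  have : {a : ℝ | ¬ 0 < a} = Iic 0 := by ext; simp
  rw [this]; exact expLaw_compl

theorem weib_Ioi {β y : ℝ} (hβ : 0 < β) (hy : 0 ≤ y) :
    weib β (Ioi y) = ENNReal.ofReal (Real.exp (-y ^ β)) := by
  unfold weib
  rw [Measure.map_apply (meas_pow β) measurableSet_Ioi, ← expLaw_Ioi (show 0 ≤ y ^ β by positivity)]
  apply measure_congr
  filter_upwards [expLaw_pos] with x hx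
  apply propext
  show y < x ^ (1 / β) ↔ y ^ β < x
  have e1 : (y ^ β) ^ (1 / β) = y := by
    rw [← Real.rpow_mul hy, mul_one_div_cancel hβ.ne', Real.rpow_one]
  constructor
  · intro h
    by_contra hc
    push Not at hc
    have := Real.rpow_le_rpow hx.le hc (show 0 ≤ 1 / β by positivity)
    rw [e1] at this; linarith
  · intro h
    have := Real.rpow_lt_rpow (by positivity) h (show 0 < 1 / β by positivity)
    rwa [e1] at this

theorem weib_pos {β : ℝ} (hβ : 0 < β) : ∀ᵐ s ∂(weib β), 0 < s := by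
  have h := weib_Ioi hβ (le_refl (0:ℝ))
  rw [Real.zero_rpow hβ.ne'] at h
  simp at h
  rw [ae_iff, show {a : ℝ | ¬ 0 < a} = (Ioi 0)ᶜ by ext; simp, prob_compl_eq_zero_iff measurableSet_Ioi]
  exact h

theorem weib_exp {β θ : ℝ} (hβ : 0 < β) (hθ : θ < 1) :
    Integrable (fun s => Real.exp (θ * s ^ β)) (weib β) := by
  unfold weib
  rw [integrable_map_measure (by fun_prop) (meas_pow β).aemeasurable]
  unfold expLaw
  rw [integrable_withDensity_iff_integrable_smul' (by fun_prop) (Eventually.of_forall fun x => ENNReal.ofReal_lt_top)]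
  have h := integrableOn_exp_mul_Ioi (show θ - 1 < 0 by linarith) 0
  refine h.congr ?_
  filter_upwards [ae_restrict_mem measurableSet_Ioi] with x hx
  have hx' : (0:ℝ) < x := hx
  simp only [Function.comp, smul_eq_mul]
  rw [ENNReal.toReal_ofReal (Real.exp_pos _).le, ← Real.rpow_mul hx'.le, one_div_mul_cancel hβ.ne',
    Real.rpow_one, ← Real.exp_add]
  congr 1; ring

theorem tail_integrable {β : ℝ} (hβ : 0 < β) :
    IntegrableOn (fun u : ℝ => Real.exp (-u ^ β)) (Ioi 0) := by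
  by_contra hc
  have h := _root_.integral_exp_neg_rpow hβ
  rw [integral_undef hc] at h
  have := Real.Gamma_pos_of_pos (show 0 < 1 / β + 1 by positivity)
  linarith

/-- lower bound for the integrated tail -/
theorem tail_lower {β X : ℝ} (hβ : 0 < β) (hβ1 : β < 1) (hX : 0 ≤ X) :
    Real.exp (-X ^ β - 1) ≤ ∫ u in Ioi X, Real.exp (-u ^ β) := by
  have hint : IntegrableOn (fun u : ℝ => Real.exp (-u ^ β)) (Ioi X) :=
    (tail_integrable hβ).mono_set (Ioi_subset_Ioi hX)
  have h1 : ∫ u in Ioc X (X + 1), Real.exp (-u ^ β) ≤ ∫ u in Ioi X, Real.exp (-u ^ β) := by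
    apply setIntegral_mono_set hint (Eventually.of_forall fun x => (Real.exp_pos _).le)
    exact (Ioc_subset_Ioi_self).eventuallyLE
  have h2 : ∫ _ in Ioc X (X + 1), Real.exp (-X ^ β - 1) ≤ ∫ u in Ioc X (X + 1), Real.exp (-u ^ β) := by
    apply setIntegral_mono_on (integrableOn_const (by simp)) (hint.mono_set Ioc_subset_Ioi_self)
      measurableSet_Ioc
    intro u hu
    apply Real.exp_le_exp.2
    have hu0 : 0 ≤ u := hX.trans hu.1.le
    have h3 : u ^ β ≤ X ^ β + 1 := by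
      calc u ^ β ≤ (X + 1) ^ β := Real.rpow_le_rpow hu0 hu.2 hβ.le
        _ ≤ X ^ β + 1 ^ β := Real.rpow_add_le_add_rpow hX zero_le_one hβ.le hβ1.le
        _ = X ^ β + 1 := by rw [Real.one_rpow]
    linarith
  have h3 : ∫ _ in Ioc X (X + 1), Real.exp (-X ^ β - 1) = Real.exp (-X ^ β - 1) := by
    simp
  linarith

/-- upper bound for the integrated tail -/
theorem tail_upper {β : ℝ} (hβ : 0 < β) (hβ1 : β < 1) : ∃ X0 : ℝ, 0 < X0 ∧ ∀ X : ℝ, X0 ≤ X →
    ∫ u in Ioi X, Real.exp (-u ^ β) ≤ 2 / β * X ^ (1 - β) * Real.exp (-X ^ β) := by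
  have hlim : Tendsto (fun u : ℝ => (1 - β) * u ^ (-β)) atTop (𝓝 ((1 - β) * 0)) :=
    (tendsto_rpow_neg_atTop hβ).const_mul _
  rw [mul_zero] at hlim
  obtain ⟨X1, hX1⟩ := eventually_atTop.1 (hlim.eventually (gt_mem_nhds (show (0:ℝ) < β / 2 by positivity)))
  refine ⟨max X1 1, by positivity, fun X hX => ?_⟩
  have hX0 : 0 < X := lt_of_lt_of_le (by positivity) hX
  set g : ℝ → ℝ := fun u => -(2 / β * (u ^ (1 - β) * Real.exp (-u ^ β))) with hg
  set g' : ℝ → ℝ := fun u => 2 / β * (Real.exp (-u ^ β) * (β - (1 - β) * u ^ (-β))) with hg'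
  have hderiv : ∀ u ∈ Ici X, HasDerivAt g (g' u) u := by
    intro u hu
    have hu0 : 0 < u := lt_of_lt_of_le hX0 hu
    have d1 : HasDerivAt (fun u : ℝ => u ^ (1 - β)) ((1 - β) * u ^ (1 - β - 1)) u :=
      Real.hasDerivAt_rpow_const (Or.inl hu0.ne')
    have d2 : HasDerivAt (fun u : ℝ => u ^ β) (β * u ^ (β - 1)) u :=
      Real.hasDerivAt_rpow_const (Or.inl hu0.ne')
    have d3 : HasDerivAt (fun u : ℝ => Real.exp (-u ^ β)) (Real.exp (-u ^ β) * (-(β * u ^ (β - 1)))) u :=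
      d2.neg.exp
    have d4 := ((d1.mul d3).const_mul (2 / β)).neg
    refine d4.congr_deriv ?_
    rw [hg']
    have e1 : u ^ (1 - β) * (u ^ (β - 1)) = 1 := by rw [← Real.rpow_add hu0]; simp
    have e2 : u ^ (1 - β - 1) = u ^ (-β) := by congr 1; ring
    simp only
    rw [e2]
    have e3 : u ^ (1 - β) * (Real.exp (-u ^ β) * -(β * u ^ (β - 1))) =
      -(Real.exp (-u ^ β) * β) * (u ^ (1 - β) * u ^ (β - 1)) := by ring
    rw [e3, e1]; ring
  have hlow : ∀ u ∈ Ioi X, Real.exp (-u ^ β) ≤ g' u := by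
    intro u hu
    have hu1 : X1 ≤ u := (le_max_left _ _).trans (hX.trans (le_of_lt hu))
    have h := hX1 u hu1
    show Real.exp (-u ^ β) ≤ 2 / β * (Real.exp (-u ^ β) * (β - (1 - β) * u ^ (-β)))
    have h2 : β / 2 ≤ β - (1 - β) * u ^ (-β) := by linarith
    have h3 := Real.exp_pos (-u ^ β)
    calc Real.exp (-u ^ β) = 2 / β * (Real.exp (-u ^ β) * (β / 2)) := by field_simp
      _ ≤ _ := by gcongr
  have hgt : Tendsto g atTop (𝓝 0) := by
    obtain ⟨C, hC, hCs⟩ := sq_le_exp hβ (show (0:ℝ) < 1 by norm_num)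
    have h1 : Tendsto (fun u : ℝ => 2 / β * (C * u⁻¹)) atTop (𝓝 (2 / β * (C * 0))) :=
      (tendsto_inv_atTop_zero.const_mul C).const_mul _
    rw [mul_zero, mul_zero] at h1
    apply squeeze_zero_norm' _ h1
    filter_upwards [eventually_ge_atTop (1:ℝ)] with u hu
    have hu0 : 0 < u := by linarith
    rw [hg]
    simp only
    rw [norm_neg, Real.norm_of_nonneg (by positivity)]
    apply mul_le_mul_of_nonneg_left _ (by positivity)
    have h2 := hCs u hu0.le
    have h3 : u ^ (1 - β) ≤ u := by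
      calc u ^ (1 - β) ≤ u ^ (1:ℝ) := Real.rpow_le_rpow_of_exponent_le hu (by linarith)
        _ = u := Real.rpow_one u
    have h4 : Real.exp (1 * u ^ β) * Real.exp (-u ^ β) = 1 := by rw [← Real.exp_add]; simp
    have h5 : 0 < Real.exp (-u ^ β) := Real.exp_pos _
    have h6 : u * u * Real.exp (-u ^ β) ≤ C := by
      have h7 : u * u ≤ C * Real.exp (1 * u ^ β) := by nlinarith
      calc u * u * Real.exp (-u ^ β) ≤ (C * Real.exp (1 * u ^ β)) * Real.exp (-u ^ β) :=
            mul_le_mul_of_nonneg_right h7 h5.le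
        _ = C := by rw [mul_assoc, h4, mul_one]
    calc u ^ (1 - β) * Real.exp (-u ^ β) ≤ u * Real.exp (-u ^ β) := by gcongr
      _ = (u * u * Real.exp (-u ^ β)) * u⁻¹ := by field_simp
      _ ≤ C * u⁻¹ := by gcongr
  have hpos : ∀ u ∈ Ioi X, 0 ≤ g' u := fun u hu => (Real.exp_pos _).le.trans (hlow u hu)
  have hI := integral_Ioi_of_hasDerivAt_of_nonneg' hderiv hpos hgt
  have hInt := integrableOn_Ioi_deriv_of_nonneg' hderiv hpos hgt
  have hle : ∫ u in Ioi X, Real.exp (-u ^ β) ≤ ∫ u in Ioi X, g' u :=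
    setIntegral_mono_on ((tail_integrable hβ).mono_set (Ioi_subset_Ioi hX0.le)) hInt measurableSet_Ioi hlow
  rw [hI] at hle
  rw [hg] at hle
  simp only at hle
  linarith

theorem weib_heavy {β c : ℝ} (h0 : 0 < β) (h1 : β < 1) (hc : 0 < c) :
    ∫⁻ s, ENNReal.ofReal (Real.exp (c * s)) ∂(weib β) = ⊤ := by
  rw [eq_top_iff]
  have hkey : ∀ x : ℝ, 0 ≤ x → ENNReal.ofReal (Real.exp (c * x - x ^ β)) ≤
      ∫⁻ s, ENNReal.ofReal (Real.exp (c * s)) ∂(weib β) := by
    intro x hx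
    have hm : Measurable (fun s : ℝ => ENNReal.ofReal (Real.exp (c * s))) := by fun_prop
    have h2 := mul_meas_ge_le_lintegral (μ := weib β) hm (ENNReal.ofReal (Real.exp (c * x)))
    refine le_trans ?_ h2
    have h3 : weib β (Ioi x) ≤ weib β {s | ENNReal.ofReal (Real.exp (c * x)) ≤ ENNReal.ofReal (Real.exp (c * s))} := by
      apply measure_mono
      intro s hs
      have hs' : x < s := hs
      show ENNReal.ofReal _ ≤ ENNReal.ofReal _
      apply ENNReal.ofReal_le_ofReal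
      apply Real.exp_le_exp.2
      nlinarith
    calc ENNReal.ofReal (Real.exp (c * x - x ^ β))
        = ENNReal.ofReal (Real.exp (c * x)) * weib β (Ioi x) := by
          rw [weib_Ioi h0 hx, ← ENNReal.ofReal_mul (Real.exp_pos _).le, ← Real.exp_add]; congr 2
      _ ≤ _ := by gcongr
  have hlim : Tendsto (fun x : ℝ => c * x - x ^ β) atTop atTop := by
    have h2 : Tendsto (fun x : ℝ => x ^ (β - 1)) atTop (𝓝 0) := by
      have := tendsto_rpow_neg_atTop (show 0 < 1 - β by linarith)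
      simpa using this
    have h3 : Tendsto (fun x : ℝ => c - x ^ (β - 1)) atTop (𝓝 (c - 0)) := h2.const_sub c
    rw [sub_zero] at h3
    have h4 := tendsto_id.atTop_mul_pos hc h3
    refine h4.congr' ?_
    filter_upwards [eventually_gt_atTop (0:ℝ)] with x hx
    simp only [id]
    rw [Real.rpow_sub_one hx.ne']; field_simp
  have hlim2 : Tendsto (fun x : ℝ => ENNReal.ofReal (Real.exp (c * x - x ^ β))) atTop (𝓝 ⊤) :=
    ENNReal.tendsto_ofReal_atTop.comp (Real.tendsto_exp_atTop.comp hlim)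
  exact le_of_tendsto hlim2 (by
    filter_upwards [eventually_ge_atTop (0:ℝ)] with x hx
    exact hkey x hx)

theorem weib_moments {β p : ℝ} (h0 : 0 < β) (hp : 0 < p) :
    ∫⁻ s, ENNReal.ofReal (s ^ p) ∂(weib β) < ⊤ := by
  obtain ⟨C, hC, h⟩ := rpow_le_exp (a := p / β) (ε := 1 / 2) (by norm_num) (by positivity)
  have hint := (weib_exp h0 (show (1/2 : ℝ) < 1 by norm_num)).const_mul C
  have h2 : Integrable (fun s : ℝ => s ^ p) (weib β) := by
    refine hint.mono' (by fun_prop) ?_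
    filter_upwards [weib_pos h0] with s hs
    rw [Real.norm_of_nonneg (by positivity)]
    have := h (s ^ β) (by positivity)
    rwa [← Real.rpow_mul hs.le, mul_div_cancel₀ _ h0.ne'] at this
  exact h2.lintegral_lt_top

theorem map_dirac {S : Measure ℝ} [IsProbabilityMeasure S] {μ : Measure (ℝ × ℝ)}
    [IsProbabilityMeasure μ] (t : ℝ) :
    (μ.prod (S.prod (Measure.dirac t))).map (fun p => kwStep p.1 p.2.1 p.2.2)
      = (μ.prod S).map (fun p => kwStep p.1 p.2 t) := by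
  have hmeas : Measurable (fun p : (ℝ × ℝ) × (ℝ × ℝ) => kwStep p.1 p.2.1 p.2.2) := by
    unfold kwStep; fun_prop
  have e1 : S.prod (Measure.dirac t) = S.map (fun s => (s, t)) := Measure.prod_dirac t
  have e2 : μ.prod (S.map (fun s => (s, t))) =
      (μ.prod S).map (Prod.map id (fun s : ℝ => (s, t))) := by
    have := Measure.map_prod_map μ S measurable_id (show Measurable (fun s : ℝ => (s, t)) by fun_prop)
    rw [Measure.map_id] at this
    exact this
  rw [e1, e2, Measure.map_map hmeas (by fun_prop)]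
  rfl

/-- **Main theorem.** For every `β` in `(0,1)` and every load `1 < ρ < 2^(1/β)/(2^(1/β)-1)` there
is a queue in the regime of the question, with service tail `exp(-x^β)` and constant interarrival
times, which has a stationary law and for which Whitt's formula fails, whatever the constants. -/
theorem result (β ρ : ℝ) (h0 : 0 < β) (h1 : β < 1) (hρ1 : 1 < ρ)
    (hρ2 : ρ < 2 ^ (1 / β) / (2 ^ (1 / β) - 1)) :
    ∃ S T : Measure ℝ, Regime S T ρ ∧
      (∀ x : ℝ, 0 ≤ x → S (Ioi x) = ENNReal.ofReal (Real.exp (-x ^ β))) ∧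
      (∃ μ : Measure (ℝ × ℝ), IsStationary S T μ) ∧
      ∀ μ : Measure (ℝ × ℝ), IsStationary S T μ → ¬ WhittFormula S μ := by
  set κ : ℝ := 2 ^ (1 / β) - 1 with hκdef
  have hb1 : 1 ≤ 1 / β := by rw [le_div_iff₀ h0]; linarith
  have h2b : (2:ℝ) ≤ 2 ^ (1 / β) := by
    calc (2:ℝ) = 2 ^ (1:ℝ) := (Real.rpow_one 2).symm
      _ ≤ 2 ^ (1 / β) := Real.rpow_le_rpow_of_exponent_le (by norm_num) hb1
  have hκ1 : 1 ≤ κ := by rw [hκdef]; linarith
  have hκ : (1 + κ) ^ β = 2 := by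
    rw [hκdef, add_sub_cancel, ← Real.rpow_mul (by norm_num), one_div_mul_cancel h0.ne', Real.rpow_one]
  have hκρ : κ * (ρ - 1) < 1 := by
    rw [lt_div_iff₀ (by linarith)] at hρ2
    have : ρ * κ < κ + 1 := by rw [hκdef]; linarith
    linarith
  have hρ2' : ρ < 2 := by nlinarith
  have hSpos := weib_pos h0
  have hS0 : ∀ᵐ s ∂(weib β), 0 ≤ s := hSpos.mono fun s hs => hs.le
  have hexp : ∀ θ' : ℝ, θ' < 1 → Integrable (fun s => Real.exp (θ' * s ^ β)) (weib β) :=
    fun θ' h => weib_exp h0 h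
  have hint0 := integrable_sq h0 (show (0:ℝ) < 1 by norm_num) hS0 hexp
  have hi1 : Integrable (fun s : ℝ => s) (weib β) := by
    have hint0' : Integrable (fun s : ℝ => (1 + s) ^ 2) (weib β) := by simpa using hint0
    refine hint0'.mono' (by fun_prop) ?_
    filter_upwards [hS0] with s hs
    rw [Real.norm_of_nonneg hs]; nlinarith
  set m := ∫ s, s ∂(weib β) with hm
  have hm0 : 0 < m := by
    rw [hm, integral_pos_iff_support_of_nonneg_ae hS0 hi1]
    have : weib β (Ioi 0) ≤ weib β (Function.support fun s : ℝ => s) := by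
      apply measure_mono; intro s hs; exact (ne_of_gt hs)
    refine lt_of_lt_of_le ?_ this
    rw [weib_Ioi h0 le_rfl]; simp [Real.exp_pos]
  set t := m / ρ with ht
  have hρ0 : 0 < ρ := by linarith
  have ht0 : 0 < t := by positivity
  have hmt : m = ρ * t := by rw [ht]; field_simp
  have htm : t ≤ m := by rw [hmt]; nlinarith
  have hneg : κ * (m - t) < t := by
    have : κ * (m - t) = (κ * (ρ - 1)) * t := by rw [hmt]; ring
    rw [this]; nlinarith
  refine ⟨weib β, Measure.dirac t, ?_, fun x hx => weib_Ioi h0 hx, ?_, ?_⟩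
  · refine ⟨inferInstance, inferInstance, hSpos, ?_, hi1, ?_, ?_, hρ1, hρ2', ?_, ?_⟩
    · rw [ae_dirac_eq, Filter.eventually_pure]; exact ht0
    · exact integrable_dirac (by simp)
    · rw [integral_dirac, ← hm]; exact hmt
    · intro c hc; exact weib_heavy h0 h1 hc
    · intro p hp; exact weib_moments h0 hp
  · obtain ⟨G, f, b, c, hGm, hfm, hG, hb, hc, hdr, hlow⟩ :=
      pair hS0 hexp hκ1 h0 h1 hκ ht0 rfl (by rw [← hm]; exact htm) (by rw [← hm]; exact hneg)
        (show (0:ℝ) < 1 / 2 by norm_num) (show (1 / 2 : ℝ) < 1 by norm_num)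
    obtain ⟨μ, hμ1, hμ2, hμ3⟩ := exists_stationary hGm hfm hG hb hc hdr (fun w h1 h2 => (hlow w h1 h2).2)
    refine ⟨μ, hμ1, hμ2, ?_⟩
    rw [map_dirac]
    exact hμ3
  intro μ hμ hW
  have hprob := hμ.prob
  have hord := hμ.ordered
  have hinv : (μ.prod (weib β)).map (fun p => kwStep p.1 p.2 t) = μ := by
    have h := hμ.invariant
    rwa [map_dirac] at h
  have hreal : ∀ y : ℝ, 0 ≤ y → (weib β).real (Ioi y) = Real.exp (-y ^ β) := by
    intro y hy
    rw [Measure.real, weib_Ioi h0 hy, ENNReal.toReal_ofReal (Real.exp_pos _).le]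
  have htailI : ∀ x : ℝ, 0 ≤ x → ∫ y in Ioi x, (weib β).real (Ioi y) = ∫ y in Ioi x, Real.exp (-y ^ β) := by
    intro x hx
    apply setIntegral_congr_fun measurableSet_Ioi
    intro y hy
    exact hreal y (hx.trans (le_of_lt hy))
  have hBlow : ∀ x : ℝ, 0 ≤ x → Real.exp (-x ^ β - 1) ≤ integratedTail (weib β) x := by
    intro x hx
    unfold integratedTail
    rw [htailI x hx]
    apply le_min
    · apply Real.exp_le_one_iff.2
      have : 0 ≤ x ^ β := by positivity
      linarith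
    · exact tail_lower h0 h1 hx
  have hBup : ∃ X0 : ℝ, 0 < X0 ∧ ∀ X : ℝ, X0 ≤ X →
      integratedTail (weib β) X ≤ 2 / β * X ^ (1 - β) * Real.exp (-X ^ β) := by
    obtain ⟨X0, hX0, hX⟩ := tail_upper h0 h1
    refine ⟨X0, hX0, fun X hXX => ?_⟩
    unfold integratedTail
    rw [htailI X (hX0.le.trans hXX)]
    exact (min_le_right _ _).trans (hX X hXX)
  obtain ⟨γ, η, hγ, hη, hlim⟩ := hW
  rcases le_or_gt 2 (η ^ β) with hcase | hcase
  · -- lower bound on the tail beats the formula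
    obtain ⟨c, Y, hc, hlow⟩ := lower hS0 h0 h1 hreal hord ht0.le hinv
    obtain ⟨X0, hX0, hup⟩ := hBup
    set c' := c / (γ * (2 / β * η ^ (1 - β))) with hc'
    have hηp : 0 < η ^ (1 - β) := Real.rpow_pos_of_pos hη _
    have hc'0 : 0 < c' := by positivity
    have hge : ∀ᶠ x in atTop, c' * x ^ (1 - β) ≤
        μ.real {w | x < w.1} / (γ * integratedTail (weib β) (η * x)) := by
      filter_upwards [eventually_ge_atTop Y, eventually_ge_atTop (X0 / η), eventually_gt_atTop (0:ℝ)]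
        with x hx1 hx2 hx3
      have hηx : X0 ≤ η * x := by rw [div_le_iff₀ hη] at hx2; linarith
      have hηx0 : 0 < η * x := by positivity
      have hBpos : 0 < integratedTail (weib β) (η * x) :=
        lt_of_lt_of_le (Real.exp_pos _) (hBlow (η * x) hηx0.le)
      rw [le_div_iff₀ (by positivity)]
      have hu := hup (η * x) hηx
      rw [Real.mul_rpow hη.le hx3.le, Real.mul_rpow hη.le hx3.le] at hu
      have hxp : 0 < x ^ (1 - β) := Real.rpow_pos_of_pos hx3 _
      have hxb : 0 < x ^ β := Real.rpow_pos_of_pos hx3 _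
      have he : Real.exp (-(η ^ β * x ^ β)) ≤ Real.exp (-(2 * x ^ β)) := by
        apply Real.exp_le_exp.2; nlinarith
      have hx2' : x ^ (2 - 2 * β) = x ^ (1 - β) * x ^ (1 - β) := by
        rw [← Real.rpow_add hx3]; congr 1; ring
      calc c' * x ^ (1 - β) * (γ * integratedTail (weib β) (η * x))
          ≤ c' * x ^ (1 - β) * (γ * (2 / β * (η ^ (1 - β) * x ^ (1 - β)) * Real.exp (-(η ^ β * x ^ β)))) := by
            gcongr
        _ ≤ c' * x ^ (1 - β) * (γ * (2 / β * (η ^ (1 - β) * x ^ (1 - β)) * Real.exp (-(2 * x ^ β)))) := by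
            gcongr
        _ = c * x ^ (2 - 2 * β) * Real.exp (-(2 * x ^ β)) := by
            rw [hx2', hc']; field_simp
        _ ≤ _ := hlow x hx1
    have hinf : Tendsto (fun x : ℝ => c' * x ^ (1 - β)) atTop atTop :=
      (tendsto_rpow_atTop (by linarith)).const_mul_atTop hc'0
    have := tendsto_atTop_mono' atTop hge hinf
    exact not_tendsto_nhds_of_tendsto_atTop this 1 hlim
  · -- upper bound on the tail beats the formula
    have hηb : 0 < η ^ β := Real.rpow_pos_of_pos hη _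
    set θ' := (η ^ β / 2 + 1) / 2 with hθ'
    have hθ0 : 0 < θ' := by positivity
    have hθ1 : θ' < 1 := by rw [hθ']; linarith
    obtain ⟨C, hC, hup⟩ := upper hS0 hexp hκ1 h0 h1 hκ ht0 rfl (by rw [← hm]; exact htm)
      (by rw [← hm]; exact hneg) hord hinv hθ0 hθ1
    have hδ : 0 < 2 * θ' - η ^ β := by rw [hθ']; linarith
    have hle : ∀ᶠ x in atTop, μ.real {w | x < w.1} / (γ * integratedTail (weib β) (η * x)) ≤
        C * Real.exp 1 / γ * Real.exp (-((2 * θ' - η ^ β) * x ^ β)) := by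
      filter_upwards [eventually_gt_atTop (0:ℝ)] with x hx
      have hηx0 : 0 < η * x := by positivity
      have hB := hBlow (η * x) hηx0.le
      rw [Real.mul_rpow hη.le hx.le] at hB
      have hBpos : 0 < integratedTail (weib β) (η * x) := lt_of_lt_of_le (Real.exp_pos _) hB
      rw [div_le_iff₀ (by positivity)]
      have e1 : Real.exp 1 * Real.exp (-((2 * θ' - η ^ β) * x ^ β)) * Real.exp (-(η ^ β * x ^ β) - 1)
          = Real.exp (-(2 * θ' * x ^ β)) := by
        rw [← Real.exp_add, ← Real.exp_add]; congr 1; ring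
      calc μ.real {w | x < w.1} ≤ C * Real.exp (-(2 * θ' * x ^ β)) := hup x hx.le
        _ = C * Real.exp 1 / γ * Real.exp (-((2 * θ' - η ^ β) * x ^ β)) *
            (γ * Real.exp (-(η ^ β * x ^ β) - 1)) := by rw [← e1]; field_simp
        _ ≤ _ := by gcongr
    have hz : Tendsto (fun x : ℝ => C * Real.exp 1 / γ * Real.exp (-((2 * θ' - η ^ β) * x ^ β))) atTop
        (𝓝 (C * Real.exp 1 / γ * 0)) := by
      apply Tendsto.const_mul
      apply Real.tendsto_exp_neg_atTop_nhds_zero.comp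
      exact (tendsto_rpow_atTop h0).const_mul_atTop hδ
    rw [mul_zero] at hz
    have := le_of_tendsto_of_tendsto hlim hz hle
    linarith

end Pool.Agent.Results.MP_04add8_pr.WhittFails
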